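import Mathlib
import Pool.Agent.H66.BP.Targets

/-! # MP_d8fe2e_gt, module ALI: the length density of a convex or concave function is integrable -/

open MeasureTheory Set Filter Topology Metric
open scoped Real ENNReal NNReal

namespace Pool.Agent.H58.BP

open Pool.Agent.H66.BP

theorem rd_convex {a b : ℝ} {f : ℝ → ℝ} (hf : ConvexOn ℝ (Icc a b) f) {x : ℝ} (hx : x ∈ Ioo a b) :
    HasDerivWithinAt f (rd f x) (Ioi x) x :=
  hf.hasDerivWithinAt_rightDeriv_of_mem_interior (by rwa [interior_Icc])

theorem rd_mono {a b : ℝ} {f : ℝ → ℝ} (hf : ConvexOn ℝ (Icc a b) f) : MonotoneOn (rd f) (Ioo a b) := by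
  have h := hf.monotoneOn_rightDeriv
  rw [interior_Icc] at h
  exact h

theorem rd_neg (f : ℝ → ℝ) (x : ℝ) : rd (fun t => - f t) x = - rd f x := by
  unfold rd
  exact derivWithin.fun_neg

/-- integrability of the right derivative of a convex function -/
theorem rd_int_convex {a b : ℝ} {f : ℝ → ℝ} (hab : a < b) (hf : ConvexOn ℝ (Icc a b) f)
    (hc : ContinuousOn f (Icc a b)) : IntervalIntegrable (rd f) volume a b := by
  set c : ℝ := (a + b) / 2 with hcd
  have hac : a < c := by
    rw [hcd]
    linarith
  have hcb : c < b := by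
    rw [hcd]
    linarith
  have hcm : c ∈ Ioo a b := ⟨hac, hcb⟩
  have hm := rd_mono hf
  set k : ℝ := rd f c with hk
  have h1 : IntegrableOn (fun x => rd f x - k) (Ioc c b) := by
    refine intervalIntegral.integrableOn_deriv_right_of_nonneg (g := fun x => f x - k * x) ?_ ?_ ?_
    · exact (hc.mono (Icc_subset_Icc_left hac.le)).sub (continuousOn_const.mul continuousOn_id)
    · intro x hx
      have hx' : x ∈ Ioo a b := ⟨hac.trans hx.1, hx.2⟩
      have h := (rd_convex hf hx').fun_sub ((hasDerivWithinAt_id x (Ioi x)).const_mul k)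
      rw [mul_one] at h
      exact h
    · intro x hx
      have hx' : x ∈ Ioo a b := ⟨hac.trans hx.1, hx.2⟩
      have := hm hcm hx' hx.1.le
      linarith
  have h2 : IntegrableOn (fun x => k - rd f x) (Ioc a c) := by
    refine intervalIntegral.integrableOn_deriv_right_of_nonneg (g := fun x => k * x - f x) ?_ ?_ ?_
    · exact (continuousOn_const.mul continuousOn_id).sub (hc.mono (Icc_subset_Icc_right hcb.le))
    · intro x hx
      have hx' : x ∈ Ioo a b := ⟨hx.1, hx.2.trans hcb⟩
      have h := ((hasDerivWithinAt_id x (Ioi x)).const_mul k).fun_sub (rd_convex hf hx')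
      rw [mul_one] at h
      exact h
    · intro x hx
      have hx' : x ∈ Ioo a b := ⟨hx.1, hx.2.trans hcb⟩
      have := hm hx' hcm hx.2.le
      linarith
  have e1 : IntervalIntegrable (rd f) volume c b := by
    rw [intervalIntegrable_iff_integrableOn_Ioc_of_le hcb.le]
    have hk' : IntegrableOn (fun _ : ℝ => k) (Ioc c b) := by
      refine integrableOn_const ?_ ?_
      · simp
      · simp
    have := h1.add hk'
    refine this.congr_fun (fun x _ => ?_) measurableSet_Ioc
    simp
  have e2 : IntervalIntegrable (rd f) volume a c := by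
    rw [intervalIntegrable_iff_integrableOn_Ioc_of_le hac.le]
    have hk' : IntegrableOn (fun _ : ℝ => k) (Ioc a c) := by
      refine integrableOn_const ?_ ?_
      · simp
      · simp
    have := hk'.sub h2
    refine this.congr_fun (fun x _ => ?_) measurableSet_Ioc
    simp
  exact e2.trans e1

theorem al_int {a b : ℝ} {f : ℝ → ℝ} (h : IntervalIntegrable (rd f) volume a b) :
    IntervalIntegrable (al f) volume a b := by
  have h1 : IntervalIntegrable (fun x => 1 + |rd f x|) volume a b :=
    intervalIntegrable_const.add h.abs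
  refine h1.mono_fun ?_ ?_
  · have hm := h.def'.aestronglyMeasurable
    have hcont : Continuous fun t : ℝ => Real.sqrt (1 + t ^ 2) :=
      Real.continuous_sqrt.comp (continuous_const.add (continuous_id.pow 2))
    exact hcont.comp_aestronglyMeasurable hm
  · refine Eventually.of_forall fun x => ?_
    have h2 : 0 ≤ al f x := Real.sqrt_nonneg _
    have h3 : 0 ≤ 1 + |rd f x| := by positivity
    simp only [Real.norm_eq_abs]
    rw [abs_of_nonneg h2, abs_of_nonneg h3]
    unfold al
    refine Real.sqrt_le_iff.mpr ⟨h3, ?_⟩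
    have := abs_nonneg (rd f x)
    have e : (rd f x) ^ 2 = |rd f x| ^ 2 := (sq_abs _).symm
    nlinarith

theorem ali_convex {a b : ℝ} {f : ℝ → ℝ} (hab : a < b) (hf : ConvexOn ℝ (Icc a b) f)
    (hc : ContinuousOn f (Icc a b)) : ∀ x ∈ Icc a b, ∀ y ∈ Icc a b, x ≤ y →
    ∫ u in x..y, rd f u = f y - f x := by
  intro x hx y hy hxy
  have hsub : Icc x y ⊆ Icc a b := Icc_subset_Icc hx.1 hy.2
  refine intervalIntegral.integral_eq_sub_of_hasDeriv_right_of_le hxy (hc.mono hsub) ?_ ?_
  · intro z hz
    exact rd_convex hf ⟨lt_of_le_of_lt hx.1 hz.1, lt_of_lt_of_le hz.2 hy.2⟩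
  · refine (rd_int_convex hab hf hc).mono_set ?_
    rw [uIcc_of_le hxy, uIcc_of_le hab.le]
    exact hsub

theorem ali : T_ALI := by
  intro a b f hab hf hc
  have hr : IntervalIntegrable (rd f) volume a b ∧ ∀ x ∈ Icc a b, ∀ y ∈ Icc a b, x ≤ y →
      ∫ u in x..y, rd f u = f y - f x := by
    rcases hf with hf | hf
    · exact ⟨rd_int_convex hab hf hc, ali_convex hab hf hc⟩
    · have hf' : ConvexOn ℝ (Icc a b) (fun t => - f t) := hf.neg
      have hc' : ContinuousOn (fun t => - f t) (Icc a b) := hc.neg
      have e : rd (fun t => - f t) = fun x => - rd f x := by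
        funext x
        exact rd_neg f x
      have h1 := rd_int_convex hab hf' hc'
      have h2 := ali_convex hab hf' hc'
      rw [e] at h1 h2
      refine ⟨?_, fun x hx y hy hxy => ?_⟩
      · have := h1.neg
        refine this.congr (fun x _ => ?_)
        simp
      · have := h2 x hx y hy hxy
        rw [intervalIntegral.integral_neg] at this
        linarith
  have hal := al_int hr.1
  refine ⟨hal, hr.1, fun x hx y hy hxy => ⟨hr.2 x hx y hy hxy, ?_⟩⟩
  rw [← hr.2 x hx y hy hxy]
  have hsub : uIcc x y ⊆ uIcc a b := by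
    rw [uIcc_of_le hxy, uIcc_of_le hab.le]
    exact Icc_subset_Icc hx.1 hy.2
  have hal0 : ∀ u, 0 ≤ al f u := fun u => Real.sqrt_nonneg _
  calc |∫ u in x..y, rd f u| ≤ ∫ u in x..y, |rd f u| := intervalIntegral.abs_integral_le_integral_abs hxy
    _ ≤ ∫ u in x..y, al f u := by
      refine intervalIntegral.integral_mono_on hxy (hr.1.mono_set hsub).abs (hal.mono_set hsub) ?_
      intro u _
      unfold al
      refine Real.le_sqrt_of_sq_le ?_
      rw [sq_abs]
      linarith
    _ ≤ ∫ u in a..b, al f u := by
      refine intervalIntegral.integral_mono_interval hx.1 hxy hy.2 ?_ hal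
      exact Eventually.of_forall hal0

end Pool.Agent.H58.BP
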