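import Pool.Agent.H96.BN.Defs

/-!
# The box power of `ω + 1`: basic facts on the box topology
-/

set_option autoImplicit false

open Topology Set

namespace Pool.Agent.H58.BP

open Pool.Agent.H96.BN

theorem mem_nbd (z : ℕ → ℕ∞) (g : ℕ → ℕ) : z ∈ nbd z g :=
  fun n => ⟨fun _ => rfl, fun h => by rw [h]; exact ENat.natCast_lt_top _⟩

theorem nbd_mono (z : ℕ → ℕ∞) {g g' : ℕ → ℕ} (h : ∀ n, g n ≤ g' n) : nbd z g' ⊆ nbd z g :=
  fun _ hw n => ⟨(hw n).1, fun h1 => lt_of_le_of_lt (by exact_mod_cast h n) ((hw n).2 h1)⟩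

theorem isOpen_nbd (z : ℕ → ℕ∞) (g : ℕ → ℕ) : IsOpen[boxTop] (nbd z g) := by
  apply TopologicalSpace.isOpen_generateFrom_of_mem
  classical
  refine ⟨fun n => if z n = ⊤ then Ioi (g n : ℕ∞) else {z n}, ?_, ?_⟩
  · intro n
    dsimp only
    split_ifs with h
    · exact isOpen_Ioi
    · exact ENat.isOpen_singleton h
  · ext w
    simp only [nbd, mem_ofPred_eq, mem_pi, mem_univ, forall_true_left]
    refine forall_congr' fun n => ?_
    split_ifs with h
    · simp [h]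
    · simp [h]

theorem exists_nbd_of_open {U : Set (ℕ → ℕ∞)} (hU : IsOpen[boxTop] U) :
    ∀ x ∈ U, ∃ g, nbd x g ⊆ U := by
  induction hU with
  | basic s hs =>
    obtain ⟨V, hV, rfl⟩ := hs
    intro x hx
    have h1 : ∀ n, ∃ a : ℕ, x n = ⊤ → Ioi (a : ℕ∞) ⊆ V n := by
      intro n
      by_cases h : x n = ⊤
      · have h2 : V n ∈ 𝓝 (⊤ : ℕ∞) := (hV n).mem_nhds (by rw [← h]; exact hx n (mem_univ n))
        obtain ⟨l, hl, hl2⟩ := exists_Ioc_subset_of_mem_nhds h2 ⟨0, by simp⟩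
        obtain ⟨a, rfl⟩ := ENat.ne_top_iff_exists.1 hl.ne
        refine ⟨a, fun _ y hy => hl2 ⟨hy, le_top⟩⟩
      · exact ⟨0, fun h' => absurd h' h⟩
    choose g hg using h1
    refine ⟨g, fun w hw n _ => ?_⟩
    by_cases h : x n = ⊤
    · exact hg n h ((hw n).2 h)
    · rw [(hw n).1 h]
      exact hx n (mem_univ n)
  | univ => exact fun x _ => ⟨0, subset_univ _⟩
  | inter s t _ _ hs ht =>
    intro x hx
    obtain ⟨g, hg⟩ := hs x hx.1
    obtain ⟨g', hg'⟩ := ht x hx.2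
    refine ⟨fun n => max (g n) (g' n), subset_inter ?_ ?_⟩
    · exact (nbd_mono x fun n => le_max_left _ _).trans hg
    · exact (nbd_mono x fun n => le_max_right _ _).trans hg'
  | sUnion S _ hS =>
    intro x hx
    obtain ⟨s, hs, hxs⟩ := hx
    obtain ⟨g, hg⟩ := hS s hs x hxs
    exact ⟨g, hg.trans (subset_sUnion_of_mem hs)⟩

theorem isOpen_iff {U : Set (ℕ → ℕ∞)} : IsOpen[boxTop] U ↔ ∀ x ∈ U, ∃ g, nbd x g ⊆ U := by
  refine ⟨exists_nbd_of_open, fun h => ?_⟩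
  rw [@isOpen_iff_forall_mem_open _ boxTop]
  intro x hx
  obtain ⟨g, hg⟩ := h x hx
  exact ⟨nbd x g, hg, isOpen_nbd x g, mem_nbd x g⟩

theorem isClosed_iff {C : Set (ℕ → ℕ∞)} :
    IsClosed[boxTop] C ↔ ∀ x, x ∉ C → ∃ g, Disjoint (nbd x g) C := by
  rw [← @isOpen_compl_iff _ _ boxTop, isOpen_iff]
  refine forall_congr' fun x => ?_
  refine imp_congr Iff.rfl ?_
  refine exists_congr fun g => ?_
  rw [Set.disjoint_right]
  constructor
  · exact fun h z hz hz2 => h hz2 hz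
  · exact fun h z hz hz2 => h hz2 hz

theorem mem_closure_iff' {U : Set (ℕ → ℕ∞)} {x : ℕ → ℕ∞} :
    x ∈ closure[boxTop] U ↔ ∀ g, (nbd x g ∩ U).Nonempty := by
  rw [@mem_closure_iff _ boxTop]
  constructor
  · intro h g
    exact h _ (isOpen_nbd x g) (mem_nbd x g)
  · intro h o ho hx
    obtain ⟨g, hg⟩ := exists_nbd_of_open ho x hx
    exact (h g).mono (inter_subset_inter_left _ hg)

/-- a neighbourhood of a point of a neighbourhood -/
theorem nbd_subset_nbd {x w : ℕ → ℕ∞} {g : ℕ → ℕ} (hw : w ∈ nbd x g) : nbd w g ⊆ nbd x g := by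
  intro z hz n
  constructor
  · intro h
    have h1 := (hw n).1 h
    rw [← h1] at h ⊢
    exact (hz n).1 h
  · intro h
    have h1 := (hw n).2 h
    by_cases h2 : w n = ⊤
    · exact (hz n).2 h2
    · rw [(hz n).1 h2]
      exact h1

/-- the total function `w` as a point -/
def tot (w : ℕ → ℕ) : ℕ → ℕ∞ := fun n => (w n : ℕ∞)

theorem tot_ne (w : ℕ → ℕ) (n : ℕ) : tot w n ≠ ⊤ := ENat.natCast_ne_top _

theorem nbd_tot (w g : ℕ → ℕ) : nbd (tot w) g = {tot w} := by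
  ext z
  rw [mem_singleton_iff]
  constructor
  · intro h
    funext n
    exact (h n).1 (tot_ne w n)
  · rintro rfl
    exact mem_nbd _ _

/-- a point without infinite values is total -/
theorem eq_tot {z : ℕ → ℕ∞} (h : ∀ n, z n ≠ ⊤) : z = tot fun n => (z n).toNat := by
  funext n
  exact (ENat.natCast_toNat (h n)).symm

/-- a total extension of `x` with large new values -/
theorem exists_tot_mem (x : ℕ → ℕ∞) (g : ℕ → ℕ) : ∃ w : ℕ → ℕ, tot w ∈ nbd x g := by
  classical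
  refine ⟨fun n => if x n = ⊤ then g n + 1 else (x n).toNat, fun n => ⟨fun h => ?_, fun h => ?_⟩⟩
  · simp only [tot, if_neg h]
    exact ENat.natCast_toNat h
  · simp only [tot, if_pos h]
    exact_mod_cast Nat.lt_succ_self (g n)

/-- an open set which is not empty has a total element -/
theorem exists_tot_mem_open {U : Set (ℕ → ℕ∞)} (hU : IsOpen[boxTop] U) (hne : U.Nonempty) :
    ∃ w, tot w ∈ U := by
  obtain ⟨x, hx⟩ := hne
  obtain ⟨g, hg⟩ := exists_nbd_of_open hU x hx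
  obtain ⟨w, hw⟩ := exists_tot_mem x g
  exact ⟨w, hg hw⟩

theorem isOpen_of_total {U : Set (ℕ → ℕ∞)} (h : ∀ z ∈ U, ∀ n, z n ≠ ⊤) : IsOpen[boxTop] U := by
  rw [isOpen_iff]
  intro z hz
  refine ⟨0, ?_⟩
  rw [eq_tot (h z hz), nbd_tot, ← eq_tot (h z hz)]
  exact singleton_subset_iff.2 hz

end Pool.Agent.H58.BP
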