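import Pool.Agent.H58.BP.Tube

/-!
# The box power of `ω + 1`: normality implies separation of discrete families
-/

set_option autoImplicit false

open Topology Set

namespace Pool.Agent.H58.BP

open Pool.Agent.H96.BN

/-- saturated closed sets are separated by saturated open sets -/
theorem sep_sat (hN : @NormalSpace _ boxTop) {H K : Set (ℕ → ℕ∞)} (hH : IsClosed[boxTop] H)
    (hK : IsClosed[boxTop] K) (sH : Sat H) (sK : Sat K) (hd : Disjoint H K) :
    ∃ U V : Set (ℕ → ℕ∞), IsOpen[boxTop] U ∧ IsOpen[boxTop] V ∧ Sat U ∧ Sat V ∧ H ⊆ U ∧ K ⊆ V ∧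
      Disjoint U V := by
  obtain ⟨U, V, hU, hV, h1, h2, h3⟩ := @NormalSpace.normal _ boxTop hN H K hH hK hd
  have key : ∀ {W G : Set (ℕ → ℕ∞)}, IsOpen[boxTop] W → Sat G → G ⊆ W →
      IsOpen[boxTop] (sat Wᶜ)ᶜ ∧ Sat (sat Wᶜ)ᶜ ∧ G ⊆ (sat Wᶜ)ᶜ ∧ (sat Wᶜ)ᶜ ⊆ W := by
    intro W G hW sG hG
    refine ⟨?_, ?_, ?_, ?_⟩
    · exact (@isOpen_compl_iff _ _ boxTop).2 (isClosed_sat ((@isClosed_compl_iff _ boxTop _).2 hW))
    · intro x hx y hy hy2
      exact hx (Sat_sat _ y hy2 x hy.symm)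
    · rintro x hx ⟨y, hy, h⟩
      exact hy (hG (sG x hx y h.symm))
    · intro x hx
      by_contra hxW
      exact hx (subset_sat _ hxW)
  obtain ⟨a1, a2, a3, a4⟩ := key hU sH h1
  obtain ⟨b1, b2, b3, b4⟩ := key hV sK h2
  exact ⟨_, _, a1, b1, a2, b2, a3, b3, h3.mono a4 b4⟩

/-- there are as few points as subsets of `ℕ` -/
theorem exists_code : ∃ c : (ℕ → ℕ∞) → ℕ → Bool, Function.Injective c := by
  obtain ⟨e, he⟩ := exists_injective_nat ℕ∞
  refine ⟨fun z n => decide (e (z (Nat.unpair n).1) = (Nat.unpair n).2), fun x y h => ?_⟩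
  funext m
  apply he
  have h1 := congrFun h (Nat.pair m (e (y m)))
  simpa using h1

universe u

/-- discrete families of saturated closed sets -/
theorem expand (hN : @NormalSpace _ boxTop) {I : Type u} (H : I → Set (ℕ → ℕ∞))
    (hH : ∀ i, IsClosed[boxTop] (H i)) (sH : ∀ i, Sat (H i))
    (hd : ∀ z, ∃ g, ∀ i j, (nbd z g ∩ H i).Nonempty → (nbd z g ∩ H j).Nonempty → i = j) :
    ∃ W : I → Set (ℕ → ℕ∞), (∀ i, IsOpen[boxTop] (W i)) ∧ (∀ i, H i ⊆ W i) ∧
      ∀ i j, i ≠ j → Disjoint (W i) (W j) := by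
  classical
  obtain ⟨c, hc⟩ := exists_code
  have hne : ∀ i, ∃ x, (H i).Nonempty → x ∈ H i := by
    intro i
    by_cases h : (H i).Nonempty
    · obtain ⟨x, hx⟩ := h
      exact ⟨x, fun _ => hx⟩
    · exact ⟨0, fun h' => absurd h' h⟩
  choose p hp using hne
  have hdis : ∀ i j z, z ∈ H i → z ∈ H j → i = j := by
    intro i j z hi hj
    obtain ⟨g, hg⟩ := hd z
    exact hg i j ⟨z, mem_nbd z g, hi⟩ ⟨z, mem_nbd z g, hj⟩
  have hinj : ∀ i j, (H i).Nonempty → (H j).Nonempty → c (p i) = c (p j) → i = j := by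
    intro i j hi hj h
    have h1 := hp i hi
    rw [hc h] at h1
    exact hdis i j _ h1 (hp j hj)
  -- unions of subfamilies are closed
  have hcl : ∀ P : I → Prop, IsClosed[boxTop] {x | ∃ i, P i ∧ x ∈ H i} := by
    intro P
    rw [isClosed_iff]
    intro x hx
    obtain ⟨g, hg⟩ := hd x
    by_cases h : ∃ i, P i ∧ (nbd x g ∩ H i).Nonempty
    · obtain ⟨i, hPi, hi⟩ := h
      have hxi : x ∉ H i := fun h' => hx ⟨i, hPi, h'⟩
      obtain ⟨g', hg'⟩ := isClosed_iff.1 (hH i) x hxi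
      refine ⟨fun n => max (g n) (g' n), ?_⟩
      rw [Set.disjoint_left]
      rintro w hw ⟨j, _, hj⟩
      have hw1 := nbd_mono x (fun n => le_max_left (g n) (g' n)) hw
      have hw2 := nbd_mono x (fun n => le_max_right (g n) (g' n)) hw
      have hij := hg j i ⟨w, hw1, hj⟩ hi
      subst hij
      exact Set.disjoint_left.1 hg' hw2 hj
    · refine ⟨g, ?_⟩
      rw [Set.disjoint_left]
      rintro w hw ⟨j, hPj, hj⟩
      exact h ⟨j, hPj, w, hw, hj⟩
  have hst : ∀ P : I → Prop, Sat {x | ∃ i, P i ∧ x ∈ H i} := by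
    rintro P x ⟨i, hPi, hi⟩ y hy
    exact ⟨i, hPi, sH i x hi y hy⟩
  have hsep : ∀ n, ∃ U V : Set (ℕ → ℕ∞), IsOpen[boxTop] U ∧ IsOpen[boxTop] V ∧ Sat U ∧ Sat V ∧
      {x | ∃ i, c (p i) n = true ∧ x ∈ H i} ⊆ U ∧ {x | ∃ i, c (p i) n = false ∧ x ∈ H i} ⊆ V ∧
      Disjoint U V := by
    intro n
    refine sep_sat hN (hcl _) (hcl _) (hst _) (hst _) ?_
    rw [Set.disjoint_left]
    rintro x ⟨i, hi1, hi2⟩ ⟨j, hj1, hj2⟩
    have hij := hdis i j x hi2 hj2
    subst hij
    rw [hi1] at hj1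
    exact absurd hj1 (by decide)
  choose U V hU hV sU sV hHU hHV hUV using hsep
  refine ⟨fun i => if (H i).Nonempty then ⋂ n, (if c (p i) n = true then U n else V n) else ∅,
    fun i => ?_, fun i => ?_, fun i j hij => ?_⟩
  · dsimp only
    split_ifs with h
    · apply isOpen_iInter_sat
      · intro n
        split_ifs
        · exact hU n
        · exact hV n
      · intro n
        split_ifs
        · exact sU n
        · exact sV n
    · exact @isOpen_empty _ boxTop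
  · intro x hx
    dsimp only
    rw [if_pos ⟨x, hx⟩, mem_iInter]
    intro n
    by_cases h : c (p i) n = true
    · rw [if_pos h]
      exact hHU n ⟨i, h, hx⟩
    · rw [if_neg h]
      rw [Bool.not_eq_true] at h
      exact hHV n ⟨i, h, hx⟩
  · dsimp only
    split_ifs with hi hj
    · have h1 : c (p i) ≠ c (p j) := fun h => hij (hinj i j hi hj h)
      obtain ⟨n, hn⟩ := Function.ne_iff.1 h1
      rw [Set.disjoint_left]
      intro x hx hx2
      rw [mem_iInter] at hx hx2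
      have hx' := hx n
      have hx2' := hx2 n
      cases hb : c (p i) n
      · have hb2 : c (p j) n = true := by
          cases hb3 : c (p j) n
          · exact absurd (hb.trans hb3.symm) hn
          · rfl
        rw [hb, if_neg (by decide)] at hx'
        rw [hb2, if_pos rfl] at hx2'
        exact Set.disjoint_left.1 (hUV n) hx2' hx'
      · have hb2 : c (p j) n = false := by
          cases hb3 : c (p j) n
          · rfl
          · exact absurd (hb.trans hb3.symm) hn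
        rw [hb, if_pos rfl] at hx'
        rw [hb2, if_neg (by decide)] at hx2'
        exact Set.disjoint_left.1 (hUV n) hx' hx2'
    · exact Set.disjoint_empty _
    · exact Set.empty_disjoint _
    · exact Set.disjoint_empty _

/-- the classes modulo finite modifications -/
def cls : Setoid (ℕ → ℕ∞) := ⟨Eqf, Eqf.refl, Eqf.symm, Eqf.trans⟩

/-- every closed discrete set can be separated -/
theorem cwh (hN : @NormalSpace _ boxTop) (D : Set (ℕ → ℕ∞))
    (hD : ∀ z, ∃ g, nbd z g ∩ D ⊆ {z}) :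
    ∃ F : (ℕ → ℕ∞) → ℕ → ℕ, ∀ x ∈ D, ∀ y ∈ D, x ≠ y → Disjoint (nbd x (F x)) (nbd y (F y)) := by
  classical
  -- subsets of `D` are closed
  have hcl : ∀ E : Set (ℕ → ℕ∞), E ⊆ D → IsClosed[boxTop] E := by
    intro E hE
    rw [isClosed_iff]
    intro x hx
    obtain ⟨g, hg⟩ := hD x
    refine ⟨g, ?_⟩
    rw [Set.disjoint_left]
    intro w hw hwE
    have h1 : w = x := hg ⟨hw, hE hwE⟩
    rw [h1] at hwE
    exact hx hwE
  -- a neighbourhood of `z` which meets only the class of `z`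
  have hz : ∀ z, ∃ g, ∀ w ∈ nbd z g, ∀ d ∈ D, Eqf w d → Eqf z d := by
    intro z
    have h1 := isClosed_sat (hcl {d | d ∈ D ∧ ¬ Eqf z d} fun d hd => hd.1)
    have h2 : z ∉ sat {d | d ∈ D ∧ ¬ Eqf z d} := by
      rintro ⟨d, hd, h⟩
      exact hd.2 h
    obtain ⟨g, hg⟩ := isClosed_iff.1 h1 z h2
    refine ⟨g, fun w hw d hd h => ?_⟩
    by_contra hc
    exact Set.disjoint_left.1 hg hw ⟨d, ⟨hd, hc⟩, h⟩
  -- the classes of the elements of `D`
  have hcls : ∀ x y : ℕ → ℕ∞, Quotient.mk cls x = Quotient.mk cls y ↔ Eqf x y := by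
    intro x y
    exact ⟨fun h => Quotient.exact h, fun h => Quotient.sound h⟩
  obtain ⟨W, hW1, hW2, hW3⟩ := expand hN
    (fun q : Quotient cls => {x | Quotient.mk cls x = q ∧ ∃ d ∈ D, Quotient.mk cls d = q})
    (by
      intro q
      rw [isClosed_iff]
      intro x hx
      obtain ⟨g, hg⟩ := hz x
      refine ⟨g, ?_⟩
      rw [Set.disjoint_left]
      rintro w hw ⟨hw1, d, hd, hd2⟩
      apply hx
      have h1 : Eqf w d := (hcls w d).1 (hw1.trans hd2.symm)
      have h2 := hg w hw d hd h1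
      exact ⟨((hcls x d).2 h2).trans hd2, d, hd, hd2⟩)
    (by
      rintro q x ⟨hx, d, hd, hd2⟩ y hy
      exact ⟨((hcls y x).2 hy).trans hx, d, hd, hd2⟩)
    (by
      intro z
      obtain ⟨g, hg⟩ := hz z
      refine ⟨g, ?_⟩
      rintro q q' ⟨w, hw, hw1, d, hd, hd2⟩ ⟨w', hw', hw1', d', hd', hd2'⟩
      have h1 := hg w hw d hd ((hcls w d).1 (hw1.trans hd2.symm))
      have h2 := hg w' hw' d' hd' ((hcls w' d').1 (hw1'.trans hd2'.symm))
      rw [← hd2, ← hd2', hcls]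
      exact h1.symm.trans h2)
  -- enumeration of the classes
  have hen : ∀ q : Quotient cls, ∃ c : (ℕ → ℕ∞) → ℕ, InjOn c {x | Quotient.mk cls x = q} := by
    intro q
    induction q using Quotient.inductionOn with
    | h z =>
      have h1 : {x | Quotient.mk cls x = Quotient.mk cls z} = {y | Eqf y z} := by
        ext x
        exact hcls x z
      rw [h1]
      exact (countable_iff_exists_injOn.1 (countable_class z))
  choose c hc using hen
  have hgd : ∀ d, ∃ g, (d ∈ D → nbd d g ⊆ W (Quotient.mk cls d)) ∧ nbd d g ∩ D ⊆ {d} := by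
    intro d
    obtain ⟨g1, hg1⟩ := hD d
    by_cases hd : d ∈ D
    · obtain ⟨g2, hg2⟩ := exists_nbd_of_open (hW1 (Quotient.mk cls d)) d
        (hW2 (Quotient.mk cls d) ⟨rfl, d, hd, rfl⟩)
      refine ⟨fun n => max (g1 n) (g2 n), fun _ => ?_, ?_⟩
      · exact (nbd_mono d fun n => le_max_right _ _).trans hg2
      · exact (inter_subset_inter_left _ (nbd_mono d fun n => le_max_left _ _)).trans hg1
    · exact ⟨g1, fun h => absurd h hd, hg1⟩
  choose G hG1 hG2 using hgd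
  -- the element of `D` in the class of `d` with number `j`
  have hel : ∀ (d : ℕ → ℕ∞) (j : ℕ), ∃ e : ℕ → ℕ∞,
      (∃ x ∈ D, Eqf x d ∧ c (Quotient.mk cls d) x = j) → (e ∈ D ∧ Eqf e d ∧
        c (Quotient.mk cls d) e = j) := by
    intro d j
    by_cases h : ∃ x ∈ D, Eqf x d ∧ c (Quotient.mk cls d) x = j
    · obtain ⟨e, h1, h2, h3⟩ := h
      exact ⟨e, fun _ => ⟨h1, h2, h3⟩⟩
    · exact ⟨d, fun h' => absurd h' h⟩
  choose E hE using hel
  refine ⟨fun d n => max (G d n)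
    ((Finset.range (c (Quotient.mk cls d) d)).sup fun j => (E d j n).toNat), ?_⟩
  have hlt : ∀ x ∈ D, ∀ y ∈ D, Eqf x y → c (Quotient.mk cls y) x < c (Quotient.mk cls y) y →
      Disjoint (nbd y fun n => max (G y n)
        ((Finset.range (c (Quotient.mk cls y) y)).sup fun j => (E y j n).toNat))
        (nbd x (G x)) := by
    intro x hx y hy hxy hlt
    have h1 := hE y (c (Quotient.mk cls y) x) ⟨x, hx, hxy, rfl⟩
    have h2 : E y (c (Quotient.mk cls y) x) = x :=
      hc (Quotient.mk cls y) ((hcls _ _).2 h1.2.1) ((hcls _ _).2 hxy) h1.2.2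
    have hyx : y ∉ nbd x (G x) := by
      intro h
      have h3 : y = x := hG2 x ⟨h, hy⟩
      rw [h3] at hlt
      exact lt_irrefl _ hlt
    refine (disjoint_nbd_of_notMem hyx).mono_left (nbd_mono y fun n => ?_)
    have h4 : (E y (c (Quotient.mk cls y) x) n).toNat ≤
        (Finset.range (c (Quotient.mk cls y) y)).sup fun j => (E y j n).toNat :=
      Finset.le_sup (f := fun j => (E y j n).toNat) (Finset.mem_range.2 hlt)
    rw [h2] at h4
    exact h4.trans (le_max_right _ _)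
  intro x hx y hy hxy
  by_cases h : Eqf x y
  · have hq : Quotient.mk cls x = Quotient.mk cls y := (hcls x y).2 h
    have hne : c (Quotient.mk cls y) x ≠ c (Quotient.mk cls y) y := by
      intro h'
      exact hxy (hc (Quotient.mk cls y) hq rfl h')
    rcases lt_or_gt_of_ne hne with h1 | h1
    · exact ((hlt x hx y hy h h1).mono_right (nbd_mono x fun n => le_max_left _ _)).symm
    · have h2 : c (Quotient.mk cls x) y < c (Quotient.mk cls x) x := by
        rw [hq]
        exact h1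
      exact (hlt y hy x hx h.symm h2).mono_right (nbd_mono y fun n => le_max_left _ _)
  · have hq : Quotient.mk cls x ≠ Quotient.mk cls y := fun h' => h ((hcls x y).1 h')
    exact (hW3 _ _ hq).mono
      ((nbd_mono x fun n => le_max_left _ _).trans (hG1 x hx))
      ((nbd_mono y fun n => le_max_left _ _).trans (hG1 y hy))

/-- disjoint expansions can be made discrete -/
theorem discr (hN : @NormalSpace _ boxTop) {I : Type u} (H W : I → Set (ℕ → ℕ∞))
    (hC : IsClosed[boxTop] (⋃ i, H i)) (hW : ∀ i, IsOpen[boxTop] (W i)) (hHW : ∀ i, H i ⊆ W i)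
    (hdis : ∀ i j, i ≠ j → Disjoint (W i) (W j)) :
    ∃ A : Set (ℕ → ℕ∞), IsOpen[boxTop] A ∧ (∀ i, H i ⊆ A) ∧
      ∀ z, ∃ g, ∀ i j, (nbd z g ∩ (W i ∩ A)).Nonempty → (nbd z g ∩ (W j ∩ A)).Nonempty → i = j := by
  have hO : IsOpen[boxTop] (⋃ i, W i) := @isOpen_iUnion _ _ boxTop _ hW
  have hd : Disjoint (⋃ i, H i) (⋃ i, W i)ᶜ := by
    rw [Set.disjoint_left]
    intro x hx hx2
    obtain ⟨i, hi⟩ := mem_iUnion.1 hx
    exact hx2 (mem_iUnion.2 ⟨i, hHW i hi⟩)
  obtain ⟨A, B, hA, hB, h1, h2, h3⟩ := @NormalSpace.normal _ boxTop hN _ _ hC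
    ((@isClosed_compl_iff _ boxTop _).2 hO) hd
  refine ⟨A, hA, fun i => (subset_iUnion H i).trans h1, fun z => ?_⟩
  by_cases hz : z ∈ ⋃ i, W i
  · obtain ⟨k, hk⟩ := mem_iUnion.1 hz
    obtain ⟨g, hg⟩ := exists_nbd_of_open (hW k) z hk
    refine ⟨g, ?_⟩
    have key : ∀ i, (nbd z g ∩ (W i ∩ A)).Nonempty → i = k := by
      rintro i ⟨w, hw, hwi, _⟩
      by_contra hc
      exact Set.disjoint_left.1 (hdis i k hc) hwi (hg hw)
    intro i j hi hj
    rw [key i hi, key j hj]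
  · obtain ⟨g, hg⟩ := exists_nbd_of_open hB z (h2 hz)
    refine ⟨g, ?_⟩
    rintro i j ⟨w, hw, _, hwA⟩ _
    exact absurd (hg hw) (Set.disjoint_left.1 h3 hwA)

/-- the family is discrete: every point has a neighbourhood which meets at most one member -/
def Discr {I : Type u} (H : I → Set (ℕ → ℕ∞)) : Prop :=
  ∀ z, ∃ g, ∀ i j, (nbd z g ∩ H i).Nonempty → (nbd z g ∩ H j).Nonempty → i = j

theorem expand' (hN : @NormalSpace _ boxTop) {I : Type u} (H : I → Set (ℕ → ℕ∞))
    (hH : ∀ i, IsClosed[boxTop] (H i)) (sH : ∀ i, Sat (H i)) (hd : Discr H) :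
    ∃ W : I → Set (ℕ → ℕ∞), (∀ i, IsOpen[boxTop] (W i)) ∧ (∀ i, H i ⊆ W i) ∧ Discr W := by
  obtain ⟨W, h1, h2, h3⟩ := expand hN H hH sH hd
  have hC : IsClosed[boxTop] (⋃ i, H i) := by
    rw [isClosed_iff]
    intro x hx
    obtain ⟨g, hg⟩ := hd x
    by_cases h : ∃ i, (nbd x g ∩ H i).Nonempty
    · obtain ⟨i, hi⟩ := h
      have hxi : x ∉ H i := fun h' => hx (mem_iUnion.2 ⟨i, h'⟩)
      obtain ⟨g', hg'⟩ := isClosed_iff.1 (hH i) x hxi
      refine ⟨fun n => max (g n) (g' n), ?_⟩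
      rw [Set.disjoint_left]
      intro w hw hw2
      obtain ⟨j, hj⟩ := mem_iUnion.1 hw2
      have hw1 := nbd_mono x (fun n => le_max_left (g n) (g' n)) hw
      have hw2 := nbd_mono x (fun n => le_max_right (g n) (g' n)) hw
      have hij := hg j i ⟨w, hw1, hj⟩ hi
      subst hij
      exact Set.disjoint_left.1 hg' hw2 hj
    · refine ⟨g, ?_⟩
      rw [Set.disjoint_left]
      intro w hw hw2
      obtain ⟨j, hj⟩ := mem_iUnion.1 hw2
      exact h ⟨j, w, hw, hj⟩
  obtain ⟨A, hA, hHA, hdA⟩ := discr hN H W hC h1 h2 h3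
  exact ⟨fun i => W i ∩ A, fun i => @IsOpen.inter _ boxTop _ _ (h1 i) hA,
    fun i => subset_inter (h2 i) (hHA i), hdA⟩

theorem cwh' (hN : @NormalSpace _ boxTop) (D : Set (ℕ → ℕ∞))
    (hD : ∀ z, ∃ g, nbd z g ∩ D ⊆ {z}) :
    ∃ F : (ℕ → ℕ∞) → ℕ → ℕ, Discr fun x : D => nbd x.1 (F x.1) := by
  classical
  obtain ⟨F, hF⟩ := cwh hN D hD
  have hC : IsClosed[boxTop] (⋃ x : D, ({x.1} : Set (ℕ → ℕ∞))) := by
    rw [isClosed_iff]
    intro x hx
    obtain ⟨g, hg⟩ := hD x
    refine ⟨g, ?_⟩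
    rw [Set.disjoint_left]
    intro w hw hwE
    obtain ⟨d, hd⟩ := mem_iUnion.1 hwE
    rw [mem_singleton_iff] at hd
    have h1 : w = x := hg ⟨hw, by rw [hd]; exact d.2⟩
    apply hx
    rw [mem_iUnion]
    exact ⟨d, by rw [mem_singleton_iff, ← hd, h1]⟩
  obtain ⟨A, hA, hHA, hdA⟩ := discr hN (fun x : D => ({x.1} : Set (ℕ → ℕ∞)))
    (fun x : D => nbd x.1 (F x.1)) hC (fun x => isOpen_nbd _ _)
    (fun x => singleton_subset_iff.2 (mem_nbd _ _))
    (fun x y hxy => hF x.1 x.2 y.1 y.2 fun h => hxy (Subtype.ext h))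
  have hG : ∀ x : ℕ → ℕ∞, ∃ g, x ∈ D → nbd x g ⊆ A := by
    intro x
    by_cases hx : x ∈ D
    · obtain ⟨g, hg⟩ := exists_nbd_of_open hA x (hHA ⟨x, hx⟩ rfl)
      exact ⟨g, fun _ => hg⟩
    · exact ⟨0, fun h => absurd h hx⟩
  choose G hG using hG
  refine ⟨fun x n => max (F x n) (G x n), fun z => ?_⟩
  obtain ⟨g, hg⟩ := hdA z
  have hsub : ∀ x : D, nbd x.1 (fun n => max (F x.1 n) (G x.1 n)) ⊆ nbd x.1 (F x.1) ∩ A :=
    fun x => subset_inter (nbd_mono _ fun n => le_max_left _ _)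
      ((nbd_mono _ fun n => le_max_right _ _).trans (hG x.1 x.2))
  exact ⟨g, fun x y hx hy => hg x y (hx.mono (inter_subset_inter_right _ (hsub x)))
    (hy.mono (inter_subset_inter_right _ (hsub y)))⟩

end Pool.Agent.H58.BP
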