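import Mathlib
import Pool.Agent.H66.BP.Targets

/-! # MP_d8fe2e_gt, module LOC: local structure of the zeros -/

open MeasureTheory Set Filter Topology Metric
open scoped Real ENNReal NNReal

namespace Pool.Agent.H58.BP

open Pool.Agent.H66.BP

/-- coordinates adapted to a nonzero vector -/
theorem coords (z₀ : ℂ × ℂ) (h : z₀ ≠ 0) : ∃ (al be : (ℂ × ℂ) →L[ℂ] ℂ) (d : ℂ × ℂ),
    (∀ z, z = al z • z₀ + be z • d) ∧ al z₀ = 1 ∧ be z₀ = 0 := by
  obtain ⟨p, q⟩ := z₀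
  by_cases hq : q = 0
  · have hp : p ≠ 0 := by
      rintro rfl
      exact h (by rw [hq]; rfl)
    refine ⟨p⁻¹ • ContinuousLinearMap.fst ℂ ℂ ℂ,
      ContinuousLinearMap.snd ℂ ℂ ℂ, (0, 1), ?_, ?_, ?_⟩
    · rintro ⟨x, y⟩
      ext
      · simp [hp, mul_comm]
      · simp [hq]
    · simp [hp]
    · simp [hq]
  · refine ⟨q⁻¹ • ContinuousLinearMap.snd ℂ ℂ ℂ,
      ContinuousLinearMap.fst ℂ ℂ ℂ - (p * q⁻¹) • ContinuousLinearMap.snd ℂ ℂ ℂ, (1, 0), ?_, ?_, ?_⟩
    · rintro ⟨x, y⟩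
      ext
      · simp
        ring
      · simp
        field_simp
    · simp [hq]
    · simp
      field_simp
      ring

/-- the scaled polynomial -/
noncomputable def scl (α : ℂ) (n : ℕ) (p : Polynomial ℂ) : Polynomial ℂ :=
  Polynomial.C (α⁻¹ ^ n) * p.comp (Polynomial.C α * Polynomial.X)

theorem scl_coeff (α : ℂ) (n : ℕ) (p : Polynomial ℂ) (k : ℕ) :
    (scl α n p).coeff k = α⁻¹ ^ n * (p.coeff k * α ^ k) := by
  unfold scl
  rw [Polynomial.coeff_C_mul, Polynomial.comp_C_mul_X_coeff]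

theorem scl_monic {α : ℂ} (hα : α ≠ 0) {n : ℕ} {p : Polynomial ℂ} (hp : p.Monic) (hn : p.natDegree = n) :
    (scl α n p).Monic ∧ (scl α n p).natDegree = n := by
  have hdeg : (scl α n p).natDegree = n := by
    unfold scl
    rw [Polynomial.natDegree_C_mul (pow_ne_zero _ (inv_ne_zero hα)), Polynomial.natDegree_comp, hn,
      Polynomial.natDegree_C_mul_X _ hα, mul_one]
  refine ⟨?_, hdeg⟩
  unfold Polynomial.Monic Polynomial.leadingCoeff
  rw [hdeg, scl_coeff]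
  have h1 : p.coeff n = 1 := by
    rw [← hn]
    exact hp
  rw [h1, one_mul, ← mul_pow, inv_mul_cancel₀ hα, one_pow]

theorem scl_mult {α : ℂ} (hα : α ≠ 0) (n : ℕ) {p : Polynomial ℂ} (hp : p ≠ 0) (ζ : ℂ) :
    (scl α n p).rootMultiplicity ζ = p.rootMultiplicity (α * ζ) := by
  unfold scl
  have hne : p.comp (Polynomial.C α * Polynomial.X) ≠ 0 := by
    intro h
    apply hp
    have h2 : (p.comp (Polynomial.C α * Polynomial.X)).comp (Polynomial.C α⁻¹ * Polynomial.X) = 0 := by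
      rw [h, Polynomial.zero_comp]
    rw [Polynomial.comp_assoc] at h2
    have h3 : (Polynomial.C α * Polynomial.X : Polynomial ℂ).comp (Polynomial.C α⁻¹ * Polynomial.X) = Polynomial.X := by
      rw [Polynomial.mul_comp, Polynomial.C_comp, Polynomial.X_comp, ← mul_assoc, ← Polynomial.C_mul,
        mul_inv_cancel₀ hα, Polynomial.C_1, one_mul]
    rwa [h3, Polynomial.comp_X] at h2
  have hC : Polynomial.C (α⁻¹ ^ n) ≠ (0 : Polynomial ℂ) := by
    rw [Ne, Polynomial.C_eq_zero]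
    exact pow_ne_zero _ (inv_ne_zero hα)
  rw [Polynomial.rootMultiplicity_mul (mul_ne_zero hC hne), Polynomial.rootMultiplicity_C, zero_add]
  have := Polynomial.rootMultiplicity_comp_C_mul_X_add_C p α 0 ζ (IsUnit.mk0 α hα)
  simpa using this

theorem scl_root {α : ℂ} (hα : α ≠ 0) (n : ℕ) {p : Polynomial ℂ} (ζ : ℂ) (h : (scl α n p).IsRoot ζ) :
    p.IsRoot (α * ζ) := by
  unfold scl at h
  rw [Polynomial.IsRoot.def, Polynomial.eval_mul, Polynomial.eval_C, Polynomial.eval_comp] at h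
  simp only [Polynomial.eval_mul, Polynomial.eval_C, Polynomial.eval_X] at h
  exact (mul_eq_zero.mp h).resolve_left (pow_ne_zero _ (inv_ne_zero hα))

/-- the scaled family is analytic -/
theorem scl_fam {z₀ : ℂ × ℂ} {a : ℂ → Polynomial ℂ} (ha : AnFam a) {al s : ℂ × ℂ → ℂ}
    (hal : AnalyticAt ℂ al z₀) (hs : AnalyticAt ℂ s z₀) (h1 : al z₀ ≠ 0) (h0 : s z₀ = 0) :
    ∃ n : ℕ, (∀ᶠ z in 𝓝 z₀, (a (s z)).Monic ∧ (a (s z)).natDegree = n) ∧
      AnFam2 z₀ (fun z => scl (al z) n (a (s z))) := by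
  obtain ⟨⟨n, hn⟩, hc⟩ := ha
  have hst : Tendsto s (𝓝 z₀) (𝓝 0) := by
    have := hs.continuousAt.tendsto
    rwa [h0] at this
  have hal0 : ∀ᶠ z in 𝓝 z₀, al z ≠ 0 := hal.continuousAt.eventually_ne h1
  refine ⟨n, hst.eventually hn, ⟨n, ?_⟩, ?_⟩
  · filter_upwards [hst.eventually hn, hal0] with z hz hz0
    exact scl_monic hz0 hz.1 hz.2
  · intro k
    simp only [scl_coeff]
    have h2 : AnalyticAt ℂ (fun z => (a (s z)).coeff k) z₀ := by
      have h3 : AnalyticAt ℂ (fun s => (a s).coeff k) (s z₀) := by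
        rw [h0]
        exact hc k
      exact h3.comp hs
    exact ((hal.inv h1).pow n).mul (h2.mul (hal.pow k))

/-- roots of the cluster polynomials tend to the centre -/
theorem roots_small {p : ℂ → Polynomial ℂ} (hp : AnFam p) {ζ₀ : ℂ}
    (h0 : p 0 = (Polynomial.X - Polynomial.C ζ₀) ^ (p 0).natDegree) {R : ℝ}
    (hR : ∀ᶠ s in 𝓝 (0 : ℂ), ∀ ζ, (p s).IsRoot ζ → ζ ∈ ball ζ₀ R) {ε : ℝ} (hε : 0 < ε) :
    ∀ᶠ s in 𝓝 (0 : ℂ), ∀ ζ, (p s).IsRoot ζ → ζ ∈ ball ζ₀ ε := by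
  obtain ⟨⟨n, hn⟩, hc⟩ := hp
  have hn0 : (p 0).natDegree = n := hn.self_of_nhds.2
  set M : ℝ := ‖ζ₀‖ + |R| + 1 with hM
  have hM0 : 0 ≤ M := by positivity
  have hlim : Tendsto (fun s => ∑ k ∈ Finset.range (n + 1), ‖(p s).coeff k - (p 0).coeff k‖ * M ^ k) (𝓝 0) (𝓝 0) := by
    have h1 : Tendsto (fun s => ∑ k ∈ Finset.range (n + 1), ‖(p s).coeff k - (p 0).coeff k‖ * M ^ k) (𝓝 0)
        (𝓝 (∑ k ∈ Finset.range (n + 1), ‖(p 0).coeff k - (p 0).coeff k‖ * M ^ k)) := by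
      refine tendsto_finset_sum _ fun k _ => ?_
      exact (((hc k).continuousAt.tendsto.sub_const _).norm).mul_const _
    simpa using h1
  have hsm := hlim.eventually_lt_const (show (0 : ℝ) < ε ^ n by positivity)
  filter_upwards [hn, hR, hsm] with s hs1 hs2 hs3 ζ hζ
  rw [mem_ball, dist_eq_norm]
  by_contra hcon
  push Not at hcon
  have hb := hs2 ζ hζ
  rw [mem_ball, dist_eq_norm] at hb
  have hζM : ‖ζ‖ ≤ M := by
    have : ‖ζ‖ ≤ ‖ζ - ζ₀‖ + ‖ζ₀‖ := by
      have := norm_add_le (ζ - ζ₀) ζ₀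
      rwa [sub_add_cancel] at this
    rw [hM]
    linarith [le_abs_self R]
  have e1 : (p 0).eval ζ = (ζ - ζ₀) ^ n := by
    rw [h0, hn0]
    simp
  have e2 : (p s).eval ζ = 0 := hζ
  have e3 : (p 0).eval ζ - (p s).eval ζ = ∑ k ∈ Finset.range (n + 1), ((p 0).coeff k - (p s).coeff k) * ζ ^ k := by
    rw [Polynomial.eval_eq_sum_range' (n := n + 1) (by rw [hn0]; exact Nat.lt_succ_self n),
      Polynomial.eval_eq_sum_range' (n := n + 1) (by rw [hs1.2]; exact Nat.lt_succ_self n), ← Finset.sum_sub_distrib]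
    refine Finset.sum_congr rfl fun k _ => ?_
    ring
  rw [e1, e2, sub_zero] at e3
  have h4 : ε ^ n ≤ ‖(ζ - ζ₀) ^ n‖ := by
    rw [norm_pow]
    exact pow_le_pow_left₀ hε.le hcon n
  rw [e3] at h4
  have h5 : ‖∑ k ∈ Finset.range (n + 1), ((p 0).coeff k - (p s).coeff k) * ζ ^ k‖
      ≤ ∑ k ∈ Finset.range (n + 1), ‖(p s).coeff k - (p 0).coeff k‖ * M ^ k := by
    refine (norm_sum_le _ _).trans (Finset.sum_le_sum fun k _ => ?_)
    rw [norm_mul, norm_pow, norm_sub_rev]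
    exact mul_le_mul_of_nonneg_left (pow_le_pow_left₀ (norm_nonneg _) hζM k) (norm_nonneg _)
  linarith

/-- monic polynomials with the same root multiplicities are equal -/
theorem poly_eq {p q : Polynomial ℂ} (hp : p.Monic) (hq : q.Monic)
    (h : ∀ ζ, p.rootMultiplicity ζ = q.rootMultiplicity ζ) : p = q := by
  have hr : p.roots = q.roots := by
    ext ζ
    rw [Polynomial.count_roots, Polynomial.count_roots, h]
  rw [(IsAlgClosed.splits p).eq_prod_roots_of_monic hp, (IsAlgClosed.splits q).eq_prod_roots_of_monic hq, hr]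

/-- finite order of an entire function which does not vanish at the origin -/
theorem ord_fin {g : ℂ → ℂ} (hg : Differentiable ℂ g) (h0 : g 0 ≠ 0) (ζ : ℂ) : analyticOrderAt g ζ ≠ ⊤ := by
  have ha : AnalyticOnNhd ℂ g univ := fun z _ => hg.analyticAt z
  refine ha.analyticOrderAt_ne_top_of_isPreconnected isPreconnected_univ (mem_univ 0) (mem_univ ζ) ?_
  have : analyticOrderAt g 0 = 0 := (hg.analyticAt 0).analyticOrderAt_eq_zero.mpr h0
  rw [this]
  exact ENat.zero_ne_top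

theorem ord_lin (g : ℂ → ℂ) (c ζ : ℂ) (hc : c ≠ 0) :
    analyticOrderNatAt (fun ξ => g (c * ξ)) ζ = analyticOrderNatAt g (c * ζ) := by
  have ha : AnalyticAt ℂ (fun ξ : ℂ => c * ξ) ζ := analyticAt_const.mul analyticAt_id
  have hd : deriv (fun ξ : ℂ => c * ξ) ζ ≠ 0 := by
    have : HasDerivAt (fun ξ : ℂ => c * ξ) (c * 1) ζ := (hasDerivAt_id ζ).const_mul c
    rw [this.deriv, mul_one]
    exact hc
  have h := analyticOrderAt_comp_of_deriv_ne_zero (f := g) ha hd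
  unfold analyticOrderNatAt
  have e : (fun ξ => g (c * ξ)) = g ∘ (fun ξ : ℂ => c * ξ) := rfl
  rw [e, h]

theorem loc (hWP : T_WP) (hALG : T_ALG) : T_LOC := by
  intro F G hF hG hF0 hG0 hFG z₀ ζ₀ hz₀ _hζ₀ ε₀ hε₀
  obtain ⟨al, be, d, hcoord, hal1, hbe0⟩ := coords z₀ hz₀
  -- the slope
  set s : ℂ × ℂ → ℂ := fun z => be z * (al z)⁻¹ with hsdef
  have hal : AnalyticAt ℂ (fun z => al z) z₀ := al.analyticAt z₀
  have hbe : AnalyticAt ℂ (fun z => be z) z₀ := be.analyticAt z₀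
  have hal1' : (fun z => al z) z₀ ≠ 0 := by
    show al z₀ ≠ 0
    rw [hal1]
    exact one_ne_zero
  have hs : AnalyticAt ℂ s z₀ := hbe.mul (hal.inv hal1')
  have hs0 : s z₀ = 0 := by
    rw [hsdef]
    simp only [hbe0, zero_mul]
  have hst : Tendsto s (𝓝 z₀) (𝓝 0) := by
    have := hs.continuousAt.tendsto
    rwa [hs0] at this
  have halne : ∀ᶠ z in 𝓝 z₀, al z ≠ 0 := hal.continuousAt.eventually_ne hal1'
  have hzs : ∀ z, al z ≠ 0 → z = al z • (z₀ + s z • d) := by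
    intro z hz
    conv_lhs => rw [hcoord z]
    rw [smul_add, smul_smul, hsdef]
    congr 2
    field_simp
  -- the four functions
  have hline : Differentiable ℂ (fun w : ℂ × ℂ => w.2 • (z₀ + w.1 • d)) :=
    differentiable_snd.fun_smul ((differentiable_const z₀).fun_add (differentiable_fst.fun_smul (differentiable_const d)))
  set f1 : ℂ × ℂ → ℂ := fun w => F (w.2 • (z₀ + w.1 • d)) with hf1
  set f2 : ℂ × ℂ → ℂ := fun w => F (-(w.2 • (z₀ + w.1 • d))) with hf2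
  set g1 : ℂ × ℂ → ℂ := fun w => G (w.2 • (z₀ + w.1 • d)) with hg1
  set g2 : ℂ × ℂ → ℂ := fun w => G (-(w.2 • (z₀ + w.1 • d))) with hg2
  have df1 : Differentiable ℂ f1 := hF.comp hline
  have df2 : Differentiable ℂ f2 := hF.comp hline.neg
  have dg1 : Differentiable ℂ g1 := hG.comp hline
  have dg2 : Differentiable ℂ g2 := hG.comp hline.neg
  have zf1 : ∀ t, f1 (t, 0) ≠ 0 := fun t => by simpa [hf1] using hF0
  have zf2 : ∀ t, f2 (t, 0) ≠ 0 := fun t => by simpa [hf2] using hF0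
  have zg1 : ∀ t, g1 (t, 0) ≠ 0 := fun t => by simpa [hg1] using hG0
  have zg2 : ∀ t, g2 (t, 0) ≠ 0 := fun t => by simpa [hg2] using hG0
  obtain ⟨e1, he1, H1⟩ := hWP f1 df1 ζ₀ ⟨0, zf1 0⟩
  obtain ⟨e2, he2, H2⟩ := hWP f2 df2 ζ₀ ⟨0, zf2 0⟩
  obtain ⟨e3, he3, H3⟩ := hWP g1 dg1 ζ₀ ⟨0, zg1 0⟩
  obtain ⟨e4, he4, H4⟩ := hWP g2 dg2 ζ₀ ⟨0, zg2 0⟩
  set r : ℝ := min (min (min e1 e2) (min e3 e4)) ε₀ / 2 with hr
  have hmpos : 0 < min (min (min e1 e2) (min e3 e4)) ε₀ :=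
    lt_min (lt_min (lt_min he1 he2) (lt_min he3 he4)) hε₀
  have hr0 : 0 < r := half_pos hmpos
  have hrm : r < min (min (min e1 e2) (min e3 e4)) ε₀ := half_lt_self hmpos
  have hre1 : r < e1 := hrm.trans_le ((min_le_left _ _).trans ((min_le_left _ _).trans (min_le_left _ _)))
  have hre2 : r < e2 := hrm.trans_le ((min_le_left _ _).trans ((min_le_left _ _).trans (min_le_right _ _)))
  have hre3 : r < e3 := hrm.trans_le ((min_le_left _ _).trans ((min_le_right _ _).trans (min_le_left _ _)))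
  have hre4 : r < e4 := hrm.trans_le ((min_le_left _ _).trans ((min_le_right _ _).trans (min_le_right _ _)))
  have hrε : r < ε₀ := hrm.trans_le (min_le_right _ _)
  obtain ⟨p1, ap1, cp1, Hp1⟩ := H1 r hr0 hre1
  obtain ⟨p2, ap2, cp2, Hp2⟩ := H2 r hr0 hre2
  obtain ⟨q1, aq1, cq1, Hq1⟩ := H3 r hr0 hre3
  obtain ⟨q2, aq2, cq2, Hq2⟩ := H4 r hr0 hre4
  have mon : ∀ {p : ℂ → Polynomial ℂ}, AnFam p → ∀ᶠ t in 𝓝 (0 : ℂ), (p t).Monic := by
    rintro p ⟨⟨n, hn⟩, -⟩
    exact hn.mono fun t ht => ht.1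
  -- the product identity
  have hprod : ∀ᶠ t in 𝓝 (0 : ℂ), p1 t * p2 t = q1 t * q2 t := by
    filter_upwards [Hp1, Hp2, Hq1, Hq2, mon ap1, mon ap2, mon aq1, mon aq2] with t h1 h2 h3 h4 m1 m2 m3 m4
    refine poly_eq (m1.mul m2) (m3.mul m4) fun ζ => ?_
    rw [Polynomial.rootMultiplicity_mul (mul_ne_zero m1.ne_zero m2.ne_zero),
      Polynomial.rootMultiplicity_mul (mul_ne_zero m3.ne_zero m4.ne_zero)]
    by_cases hζ : ζ ∈ ball ζ₀ r
    · rw [h1.2 ζ hζ, h2.2 ζ hζ, h3.2 ζ hζ, h4.2 ζ hζ]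
      have D : ∀ {g : ℂ × ℂ → ℂ}, Differentiable ℂ g → Differentiable ℂ (fun ξ => g (t, ξ)) := fun hg =>
        hg.comp ((differentiable_const t).prodMk differentiable_id)
      rw [← analyticOrderNatAt_mul ((D df1).analyticAt ζ) ((D df2).analyticAt ζ) (ord_fin (D df1) (zf1 t) ζ)
        (ord_fin (D df2) (zf2 t) ζ),
        ← analyticOrderNatAt_mul ((D dg1).analyticAt ζ) ((D dg2).analyticAt ζ) (ord_fin (D dg1) (zg1 t) ζ)
        (ord_fin (D dg2) (zg2 t) ζ)]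
      congr 1
      funext ξ
      simp only [Pi.mul_apply, hf1, hf2, hg1, hg2]
      exact hFG _
    · have Z : ∀ {p : Polynomial ℂ}, (∀ ζ, p.IsRoot ζ → ζ ∈ ball ζ₀ r) → p.rootMultiplicity ζ = 0 := by
        intro p hp
        exact Polynomial.rootMultiplicity_eq_zero fun h => hζ (hp ζ h)
      rw [Z h1.1, Z h2.1, Z h3.1, Z h4.1]
  obtain ⟨a, b, c, d', ha, hb, hc, hd, hfac, hcop⟩ := hALG p1 p2 q1 q2 ap1 ap2 aq1 aq2 hprod
  obtain ⟨na, hna, fa⟩ := scl_fam ha hal hs hal1' hs0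
  obtain ⟨nb, hnb, fb⟩ := scl_fam hb hal hs hal1' hs0
  obtain ⟨nc, hnc, fc⟩ := scl_fam hc hal hs hal1' hs0
  obtain ⟨nd, hnd, fd⟩ := scl_fam hd hal hs hal1' hs0
  -- roots of the four families
  have hroots : ∀ {η : ℝ}, 0 < η → ∀ᶠ t in 𝓝 (0 : ℂ), ∀ ζ,
      (a t).IsRoot ζ ∨ (b t).IsRoot ζ ∨ (c t).IsRoot ζ ∨ (d' t).IsRoot ζ → ζ ∈ ball ζ₀ η := by
    intro η hη
    filter_upwards [roots_small ap1 cp1 (Hp1.mono fun t ht => ht.1) hη,
      roots_small ap2 cp2 (Hp2.mono fun t ht => ht.1) hη, hfac] with t h1 h2 h3 ζ hζ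
    obtain ⟨h31, -, h33, -⟩ := h3
    rcases hζ with h | h | h | h
    · refine h1 ζ ?_
      rw [h31]
      exact Polynomial.root_mul_right_of_isRoot _ h
    · refine h1 ζ ?_
      rw [h31]
      exact Polynomial.root_mul_left_of_isRoot _ h
    · refine h2 ζ ?_
      rw [h33]
      exact Polynomial.root_mul_right_of_isRoot _ h
    · refine h2 ζ ?_
      rw [h33]
      exact Polynomial.root_mul_left_of_isRoot _ h
  refine ⟨r / 2, half_pos hr0, (half_lt_self hr0).trans hrε, fun z => scl (al z) na (a (s z)),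
    fun z => scl (al z) nb (b (s z)), fun z => scl (al z) nc (c (s z)), fun z => scl (al z) nd (d' (s z)),
    fa, fb, fc, fd, ?_, ?_, ?_⟩
  · intro ζ hζ
    have hal0 : al z₀ ≠ 0 := hal1'
    have hζ' : (a 0).IsRoot ζ ∨ (b 0).IsRoot ζ ∨ (c 0).IsRoot ζ ∨ (d' 0).IsRoot ζ := by
      have R : ∀ {n : ℕ} {p : ℂ → Polynomial ℂ}, (scl (al z₀) n (p (s z₀))).IsRoot ζ → (p 0).IsRoot ζ := by
        intro n p h
        have := scl_root hal0 n ζ h
        rwa [hal1, one_mul, hs0] at this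
      rcases hζ with h | h | h | h
      · exact Or.inl (R h)
      · exact Or.inr (Or.inl (R h))
      · exact Or.inr (Or.inr (Or.inl (R h)))
      · exact Or.inr (Or.inr (Or.inr (R h)))
    by_contra hne
    have hpos : 0 < dist ζ ζ₀ := dist_pos.mpr hne
    have := (hroots hpos).self_of_nhds ζ hζ'
    exact lt_irrefl _ (mem_ball.mp this)
  · -- radius estimates
    have hnear : ∀ᶠ z in 𝓝 z₀, ‖al z - 1‖ * (‖ζ₀‖ + r) < r / 4 ∧ ‖al z‖ < 3 / 2 := by
      have t1 : Tendsto (fun z => ‖al z - 1‖ * (‖ζ₀‖ + r)) (𝓝 z₀) (𝓝 (‖al z₀ - 1‖ * (‖ζ₀‖ + r))) :=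
        ((hal.continuousAt.tendsto.sub_const 1).norm).mul_const _
      rw [hal1, sub_self, norm_zero, zero_mul] at t1
      have t2 : Tendsto (fun z => ‖al z‖) (𝓝 z₀) (𝓝 ‖al z₀‖) := hal.continuousAt.tendsto.norm
      rw [hal1, norm_one] at t2
      exact (t1.eventually_lt_const (by positivity)).and (t2.eventually_lt_const (by norm_num))
    have hr8 : 0 < r / 8 := by positivity
    filter_upwards [halne, hnear, hst.eventually (hroots hr8), hst.eventually Hp1, hst.eventually Hp2,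
      hst.eventually Hq1, hst.eventually Hq2, hst.eventually hfac, hna, hnb, hnc, hnd] with
      z hz0 hzn hzr hp1 hp2 hq1 hq2 hzf ma mb mc md
    constructor
    · intro ζ hζ
      have hζ' : (a (s z)).IsRoot (al z * ζ) ∨ (b (s z)).IsRoot (al z * ζ) ∨ (c (s z)).IsRoot (al z * ζ) ∨
          (d' (s z)).IsRoot (al z * ζ) := by
        rcases hζ with h | h | h | h
        · exact Or.inl (scl_root hz0 _ ζ h)
        · exact Or.inr (Or.inl (scl_root hz0 _ ζ h))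
        · exact Or.inr (Or.inr (Or.inl (scl_root hz0 _ ζ h)))
        · exact Or.inr (Or.inr (Or.inr (scl_root hz0 _ ζ h)))
      have h1 := hzr _ hζ'
      rw [mem_ball, dist_eq_norm] at h1 ⊢
      have e : al z * ζ - ζ₀ = (ζ - ζ₀) + (al z - 1) * (ζ - ζ₀) + (al z - 1) * ζ₀ := by ring
      have h2 : ‖ζ - ζ₀‖ ≤ ‖al z * ζ - ζ₀‖ + ‖al z - 1‖ * ‖ζ - ζ₀‖ + ‖al z - 1‖ * ‖ζ₀‖ := by
        have e2 : ζ - ζ₀ = (al z * ζ - ζ₀) - (al z - 1) * (ζ - ζ₀) - (al z - 1) * ζ₀ := by ring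
        calc ‖ζ - ζ₀‖ = ‖(al z * ζ - ζ₀) - (al z - 1) * (ζ - ζ₀) - (al z - 1) * ζ₀‖ := by rw [← e2]
          _ ≤ ‖(al z * ζ - ζ₀) - (al z - 1) * (ζ - ζ₀)‖ + ‖(al z - 1) * ζ₀‖ := norm_sub_le _ _
          _ ≤ (‖al z * ζ - ζ₀‖ + ‖(al z - 1) * (ζ - ζ₀)‖) + ‖(al z - 1) * ζ₀‖ := by
            gcongr
            exact norm_sub_le _ _
          _ = _ := by rw [norm_mul, norm_mul]
      have h3 : ‖al z - 1‖ ≤ 1 / 4 := by
        have h5 := hzn.1
        have h6 : ‖al z - 1‖ * r ≤ ‖al z - 1‖ * (‖ζ₀‖ + r) :=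
          mul_le_mul_of_nonneg_left (by linarith [norm_nonneg ζ₀]) (norm_nonneg _)
        have h7 : ‖al z - 1‖ * r < (1 / 4) * r := by linarith
        exact (lt_of_mul_lt_mul_right h7 hr0.le).le
      have h4 : ‖al z - 1‖ * ‖ζ₀‖ ≤ ‖al z - 1‖ * (‖ζ₀‖ + r) :=
        mul_le_mul_of_nonneg_left (by linarith) (norm_nonneg _)
      have h5 : ‖al z - 1‖ * ‖ζ - ζ₀‖ ≤ (1 / 4) * ‖ζ - ζ₀‖ :=
        mul_le_mul_of_nonneg_right h3 (norm_nonneg _)
      linarith [hzn.1]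
    · intro ζ hζ
      rw [mem_ball, dist_eq_norm] at hζ
      have hin : al z * ζ ∈ ball ζ₀ r := by
        rw [mem_ball, dist_eq_norm]
        have e : al z * ζ - ζ₀ = al z * (ζ - ζ₀) + (al z - 1) * ζ₀ := by ring
        rw [e]
        refine (norm_add_le _ _).trans_lt ?_
        rw [norm_mul, norm_mul]
        have h4 : ‖al z - 1‖ * ‖ζ₀‖ ≤ ‖al z - 1‖ * (‖ζ₀‖ + r) :=
          mul_le_mul_of_nonneg_left (by linarith) (norm_nonneg _)
        have h5 : ‖al z‖ * ‖ζ - ζ₀‖ ≤ (3 / 2) * (r / 2) :=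
          mul_le_mul hzn.2.le hζ.le (norm_nonneg _) (by norm_num)
        linarith [hzn.1]
      have hz := hzs z hz0
      -- the orders
      have oF1 : oF F z ζ = analyticOrderNatAt (fun ξ => f1 (s z, ξ)) (al z * ζ) := by
        rw [← ord_lin (fun ξ => f1 (s z, ξ)) (al z) ζ hz0]
        unfold oF
        congr 1
        funext ξ
        simp only [hf1]
        conv_lhs => rw [hz]
        rw [smul_smul, mul_comm]
      have oG1 : oF G z ζ = analyticOrderNatAt (fun ξ => g1 (s z, ξ)) (al z * ζ) := by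
        rw [← ord_lin (fun ξ => g1 (s z, ξ)) (al z) ζ hz0]
        unfold oF
        congr 1
        funext ξ
        simp only [hg1]
        conv_lhs => rw [hz]
        rw [smul_smul, mul_comm]
      have oF2 : oF F z (-ζ) = analyticOrderNatAt (fun ξ => f2 (s z, ξ)) (al z * ζ) := by
        have h := ord_lin (fun ξ => f2 (s z, ξ)) (-(al z)) (-ζ) (neg_ne_zero.mpr hz0)
        rw [neg_mul_neg] at h
        rw [← h]
        unfold oF
        congr 1
        funext ξ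
        simp only [hf2]
        conv_lhs => rw [hz]
        rw [smul_smul, mul_comm ξ (al z), neg_mul, neg_smul, neg_neg]
      have oG2 : oF G z (-ζ) = analyticOrderNatAt (fun ξ => g2 (s z, ξ)) (al z * ζ) := by
        have h := ord_lin (fun ξ => g2 (s z, ξ)) (-(al z)) (-ζ) (neg_ne_zero.mpr hz0)
        rw [neg_mul_neg] at h
        rw [← h]
        unfold oF
        congr 1
        funext ξ
        simp only [hg2]
        conv_lhs => rw [hz]
        rw [smul_smul, mul_comm ξ (al z), neg_mul, neg_smul, neg_neg]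
      obtain ⟨f1', f2', f3', f4'⟩ := hzf
      rw [scl_mult hz0 _ ma.1.ne_zero, scl_mult hz0 _ mb.1.ne_zero, scl_mult hz0 _ mc.1.ne_zero,
        scl_mult hz0 _ md.1.ne_zero, oF1, oG1, oF2, oG2, ← hp1.2 _ hin, ← hq1.2 _ hin, ← hp2.2 _ hin,
        ← hq2.2 _ hin, f1', f2', f3', f4',
        Polynomial.rootMultiplicity_mul (mul_ne_zero ma.1.ne_zero mb.1.ne_zero),
        Polynomial.rootMultiplicity_mul (mul_ne_zero ma.1.ne_zero mc.1.ne_zero),
        Polynomial.rootMultiplicity_mul (mul_ne_zero mc.1.ne_zero md.1.ne_zero),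
        Polynomial.rootMultiplicity_mul (mul_ne_zero mb.1.ne_zero md.1.ne_zero)]
      exact ⟨rfl, rfl, rfl, rfl⟩
  · have hcop' : ∀ᶠ t in 𝓝 (0 : ℂ), t ≠ 0 → IsCoprime (b t) (c t) := by
      have := eventually_nhdsWithin_iff.mp hcop
      exact this
    filter_upwards [halne, hst.eventually hcop'] with z hz0 hzc hmul ζ hζ
    have hsne : s z ≠ 0 := by
      intro h
      refine hmul (al z) ?_
      have := hzs z hz0
      rw [h, zero_smul, add_zero] at this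
      exact this
    have h1 := scl_root hz0 _ ζ hζ.1
    have h2 := scl_root hz0 _ ζ hζ.2
    obtain ⟨u, v, huv⟩ := hzc hsne
    have h3 := congrArg (Polynomial.eval (al z * ζ)) huv
    rw [Polynomial.eval_add, Polynomial.eval_mul, Polynomial.eval_mul, h1.eq_zero, h2.eq_zero, mul_zero, mul_zero,
      add_zero, Polynomial.eval_one] at h3
    exact zero_ne_one h3

end Pool.Agent.H58.BP
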