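import Pool.Agent.H58.BP.Basic

/-!
# Normality, mild normality and interpolation for the box power of `ω + 1`
-/

set_option autoImplicit false

open Topology Set

namespace Pool.Agent.H58.BP

open Pool.Agent.H96.BN

/-- `S` and `T` are far: every point of the box power has a basic neighbourhood which contains no
(total) function of `S` or no function of `T` -/
def Far (S T : Set (ℕ → ℕ)) : Prop :=
  ∀ x : ℕ → ℕ∞, ∃ g : ℕ → ℕ, (∀ w ∈ S, tot w ∉ nbd x g) ∨ ∀ w ∈ T, tot w ∉ nbd x g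

/-- any two open sets with disjoint closures have closures which can be separated -/
def Mild : Prop :=
  ∀ U V : Set (ℕ → ℕ∞), IsOpen[boxTop] U → IsOpen[boxTop] V →
    Disjoint (closure[boxTop] U) (closure[boxTop] V) →
    @SeparatedNhds _ boxTop (closure[boxTop] U) (closure[boxTop] V)

/-- interpolation -/
def Interp : Prop := ∀ S T : Set (ℕ → ℕ), Far S T → ∃ C : Set (ℕ → ℕ), Far S Cᶜ ∧ Far C T

/-- the point with even coordinates `u` and odd coordinates `p` -/
def mix (u p : ℕ → ℕ∞) : ℕ → ℕ∞ := fun n => if n % 2 = 0 then u (n / 2) else p (n / 2)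

theorem mix_even (u p : ℕ → ℕ∞) (n : ℕ) : mix u p (2 * n) = u n := by
  unfold mix
  rw [if_pos (by omega)]
  congr 1
  omega

theorem mix_odd (u p : ℕ → ℕ∞) (n : ℕ) : mix u p (2 * n + 1) = p n := by
  unfold mix
  rw [if_neg (by omega)]
  congr 1
  omega

/-- the extension of `x` by the values `g + 1` -/
noncomputable def ext (x : ℕ → ℕ∞) (g : ℕ → ℕ) : ℕ → ℕ∞ := by
  classical
  exact fun n => if x n = ⊤ then ((g n + 1 : ℕ) : ℕ∞) else x n

/-- the isolated points which code the set `H` -/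
def TH (H : Set (ℕ → ℕ∞)) (e : ℕ) : Set (ℕ → ℕ∞) :=
  {z | ∃ x ∈ H, ∃ g : ℕ → ℕ, z = mix (ext x g) (tot fun n => 2 * g n + e)}

theorem ext_ne (x : ℕ → ℕ∞) (g : ℕ → ℕ) (n : ℕ) : ext x g n ≠ ⊤ := by
  unfold ext
  split_ifs with h
  · exact ENat.natCast_ne_top _
  · exact h

theorem isOpen_TH (H : Set (ℕ → ℕ∞)) (e : ℕ) : IsOpen[boxTop] (TH H e) := by
  apply isOpen_of_total
  rintro z ⟨x, _, g, rfl⟩ n
  unfold mix
  split_ifs
  · exact ext_ne x g _
  · exact tot_ne _ _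

/-- the neighbourhood of `mix u ⊤` -/
theorem mem_nbd_mix {z u : ℕ → ℕ∞} {G : ℕ → ℕ} (h : z ∈ nbd (mix u fun _ => ⊤) G) :
    (∀ n, (u n ≠ ⊤ → z (2 * n) = u n) ∧ (u n = ⊤ → (G (2 * n) : ℕ∞) < z (2 * n))) ∧
      ∀ n, (G (2 * n + 1) : ℕ∞) < z (2 * n + 1) := by
  constructor
  · intro n
    have h1 := h (2 * n)
    rw [mix_even] at h1
    exact h1
  · intro n
    have h1 := h (2 * n + 1)
    rw [mix_odd] at h1
    exact h1.2 rfl

/-- if `u` is not in the closed set `H` then the coded set stays away from `mix u ⊤` -/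
theorem away {H : Set (ℕ → ℕ∞)} (hH : IsClosed[boxTop] H) (e : ℕ) (he : e ≤ 1) {u : ℕ → ℕ∞}
    (hu : u ∉ H) : ∃ G, Disjoint (nbd (mix u fun _ => ⊤) G) (TH H e) := by
  obtain ⟨g0, hg0⟩ := (isClosed_iff.1 hH) u hu
  refine ⟨fun n => if n % 2 = 0 then g0 (n / 2) else 2 * (u (n / 2)).toNat + 1, ?_⟩
  rw [Set.disjoint_left]
  rintro z hz ⟨x, hx, g, rfl⟩
  obtain ⟨h1, h2⟩ := mem_nbd_mix hz
  have h3 : ∀ n, (u n).toNat < g n := by
    intro n
    have h4 := h2 n
    rw [mix_odd] at h4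
    simp only [tot] at h4
    rw [if_neg (by omega), show (2 * n + 1) / 2 = n by omega] at h4
    have h5 : 2 * (u n).toNat + 1 < 2 * g n + e := by exact_mod_cast h4
    omega
  have h6 : x ∈ nbd u g0 := by
    intro n
    have h7 := h1 n
    rw [mix_even] at h7
    unfold ext at h7
    constructor
    · intro h8
      have h9 := h7.1 h8
      by_cases h10 : x n = ⊤
      · exfalso
        rw [if_pos h10] at h9
        have h11 := h3 n
        rw [← h9, ENat.toNat_natCast] at h11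
        omega
      · rw [if_neg h10] at h9
        exact h9
    · intro h8
      have h9 := h7.2 h8
      rw [if_pos (by omega), show 2 * n / 2 = n by omega] at h9
      by_cases h10 : x n = ⊤
      · rw [h10]
        exact ENat.natCast_lt_top _
      · rw [if_neg h10] at h9
        exact h9
  exact Set.disjoint_left.1 hg0 h6 hx

/-- every element of `H` is in the closure of the coded set -/
theorem mem_closure_TH {H : Set (ℕ → ℕ∞)} (e : ℕ) {x : ℕ → ℕ∞} (hx : x ∈ H) :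
    (mix x fun _ => ⊤) ∈ closure[boxTop] (TH H e) := by
  rw [mem_closure_iff']
  intro G
  refine ⟨mix (ext x fun n => G (2 * n) + G (2 * n + 1) + 1)
    (tot fun n => 2 * (G (2 * n) + G (2 * n + 1) + 1) + e), ?_, x, hx, _, rfl⟩
  intro n
  rcases Nat.even_or_odd' n with ⟨k, rfl | rfl⟩
  · rw [mix_even, mix_even]
    unfold ext
    constructor
    · intro h
      rw [if_neg h]
    · intro h
      rw [if_pos h]
      exact_mod_cast (by omega : G (2 * k) < G (2 * k) + G (2 * k + 1) + 1 + 1)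
  · rw [mix_odd, mix_odd]
    constructor
    · intro h
      exact absurd rfl h
    · intro _
      simp only [tot]
      exact_mod_cast (by omega : G (2 * k + 1) < 2 * (G (2 * k) + G (2 * k + 1) + 1) + e)

theorem eq_mix (z : ℕ → ℕ∞) : z = mix (fun n => z (2 * n)) fun n => z (2 * n + 1) := by
  funext n
  rcases Nat.even_or_odd' n with ⟨k, rfl | rfl⟩
  · rw [mix_even]
  · rw [mix_odd]

theorem disjoint_closure {H K : Set (ℕ → ℕ∞)} (hH : IsClosed[boxTop] H) (hK : IsClosed[boxTop] K)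
    (hd : Disjoint H K) :
    Disjoint (closure[boxTop] (TH H 0)) (closure[boxTop] (TH K 1)) := by
  rw [Set.disjoint_left]
  intro z h1 h2
  rw [mem_closure_iff'] at h1 h2
  by_cases h3 : ∀ n, z (2 * n + 1) = ⊤
  · have h4 : z = mix (fun n => z (2 * n)) fun _ => ⊤ := by
      conv_lhs => rw [eq_mix z]
      rw [funext h3]
    rw [h4] at h1 h2
    by_cases h5 : (fun n => z (2 * n)) ∈ H
    · have h6 : (fun n => z (2 * n)) ∉ K := Set.disjoint_left.1 hd h5
      obtain ⟨G, hG⟩ := away hK 1 le_rfl h6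
      obtain ⟨w, hw1, hw2⟩ := h2 G
      exact Set.disjoint_left.1 hG hw1 hw2
    · obtain ⟨G, hG⟩ := away hH 0 (by omega) h5
      obtain ⟨w, hw1, hw2⟩ := h1 G
      exact Set.disjoint_left.1 hG hw1 hw2
  · push Not at h3
    obtain ⟨n, hn⟩ := h3
    obtain ⟨a, ha1, x, _, g, rfl⟩ := h1 0
    obtain ⟨b, hb1, y, _, g', rfl⟩ := h2 0
    have h4 := (ha1 (2 * n + 1)).1 hn
    have h5 := (hb1 (2 * n + 1)).1 hn
    rw [← h5, mix_odd, mix_odd] at h4
    simp only [tot] at h4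
    have h6 : 2 * g n + 0 = 2 * g' n + 1 := by exact_mod_cast h4
    omega

theorem isOpen_pre {O : Set (ℕ → ℕ∞)} (hO : IsOpen[boxTop] O) :
    IsOpen[boxTop] {u : ℕ → ℕ∞ | (mix u fun _ => ⊤) ∈ O} := by
  rw [isOpen_iff]
  intro u hu
  obtain ⟨G, hG⟩ := exists_nbd_of_open hO _ hu
  refine ⟨fun n => G (2 * n), fun w hw => hG ?_⟩
  intro n
  rcases Nat.even_or_odd' n with ⟨k, rfl | rfl⟩
  · rw [mix_even, mix_even]
    exact hw k
  · rw [mix_odd, mix_odd]
    exact ⟨fun _ => rfl, fun _ => ENat.natCast_lt_top _⟩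

theorem normal_of_mild (h : Mild) : @NormalSpace _ boxTop := by
  refine @NormalSpace.mk _ boxTop ?_
  intro H K hH hK hd
  obtain ⟨O1, O2, hO1, hO2, h1, h2, h3⟩ := h _ _ (isOpen_TH H 0) (isOpen_TH K 1)
    (disjoint_closure hH hK hd)
  refine ⟨_, _, isOpen_pre hO1, isOpen_pre hO2, fun x hx => h1 (mem_closure_TH 0 hx),
    fun x hx => h2 (mem_closure_TH 1 hx), ?_⟩
  rw [Set.disjoint_left] at h3 ⊢
  exact fun u hu hu2 => h3 hu hu2

theorem mild_of_normal (h : @NormalSpace _ boxTop) : Mild := by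
  intro U V _ _ hd
  exact @NormalSpace.normal _ boxTop h _ _ (@isClosed_closure _ boxTop U)
    (@isClosed_closure _ boxTop V) hd

theorem interp_of_mild (h : Mild) : Interp := by
  intro S T hST
  have hU : IsOpen[boxTop] (tot '' S) := by
    apply isOpen_of_total
    rintro _ ⟨w, _, rfl⟩ n
    exact tot_ne w n
  have hV : IsOpen[boxTop] (tot '' T) := by
    apply isOpen_of_total
    rintro _ ⟨w, _, rfl⟩ n
    exact tot_ne w n
  have hd : Disjoint (closure[boxTop] (tot '' S)) (closure[boxTop] (tot '' T)) := by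
    rw [Set.disjoint_left]
    intro z h1 h2
    rw [mem_closure_iff'] at h1 h2
    obtain ⟨g, hg | hg⟩ := hST z
    · obtain ⟨_, h3, w, hw, rfl⟩ := h1 g
      exact hg w hw h3
    · obtain ⟨_, h3, w, hw, rfl⟩ := h2 g
      exact hg w hw h3
  obtain ⟨O1, O2, hO1, hO2, h1, h2, h3⟩ := h _ _ hU hV hd
  rw [Set.disjoint_left] at h3
  refine ⟨{w | tot w ∈ O1}, fun x => ?_, fun x => ?_⟩
  · by_cases hx : x ∈ closure[boxTop] (tot '' S)
    · obtain ⟨g, hg⟩ := exists_nbd_of_open hO1 x (h1 hx)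
      exact ⟨g, Or.inr fun w hw hw2 => hw (hg hw2)⟩
    · rw [mem_closure_iff'] at hx
      push Not at hx
      obtain ⟨g, hg⟩ := hx
      exact ⟨g, Or.inl fun w hw hw2 =>
        Set.eq_empty_iff_forall_notMem.1 hg (tot w) ⟨hw2, w, hw, rfl⟩⟩
  · by_cases hx : x ∈ closure[boxTop] (tot '' T)
    · obtain ⟨g, hg⟩ := exists_nbd_of_open hO2 x (h2 hx)
      exact ⟨g, Or.inl fun w hw hw2 => h3 hw (hg hw2)⟩
    · rw [mem_closure_iff'] at hx
      push Not at hx
      obtain ⟨g, hg⟩ := hx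
      exact ⟨g, Or.inr fun w hw hw2 =>
        Set.eq_empty_iff_forall_notMem.1 hg (tot w) ⟨hw2, w, hw, rfl⟩⟩

/-- the open set of all points with a neighbourhood all of whose total elements are in `C` -/
def inr (C : Set (ℕ → ℕ)) : Set (ℕ → ℕ∞) :=
  {z | ∃ g, ∀ w, tot w ∈ nbd z g → w ∈ C}

theorem isOpen_inr (C : Set (ℕ → ℕ)) : IsOpen[boxTop] (inr C) := by
  rw [isOpen_iff]
  rintro z ⟨g, hg⟩
  exact ⟨g, fun y hy => ⟨g, fun w hw => hg w (nbd_subset_nbd hy hw)⟩⟩

theorem disjoint_inr (C : Set (ℕ → ℕ)) : Disjoint (inr C) (inr Cᶜ) := by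
  rw [Set.disjoint_left]
  rintro z ⟨g, hg⟩ ⟨g', hg'⟩
  obtain ⟨w, hw⟩ := exists_tot_mem z fun n => max (g n) (g' n)
  exact hg' w (nbd_mono z (fun n => le_max_right _ _) hw)
    (hg w (nbd_mono z (fun n => le_max_left _ _) hw))

theorem mild_of_interp (h : Interp) : Mild := by
  intro U V hU hV hd
  have hcl : ∀ {W : Set (ℕ → ℕ∞)}, IsOpen[boxTop] W → ∀ {z}, z ∈ closure[boxTop] W →
      ∀ g, ∃ w, tot w ∈ nbd z g ∧ tot w ∈ W := by
    intro W hW z hz g
    rw [mem_closure_iff'] at hz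
    obtain ⟨y, hy1, hy2⟩ := hz g
    obtain ⟨g', hg'⟩ := exists_nbd_of_open hW y hy2
    obtain ⟨w, hw⟩ := exists_tot_mem y fun n => max (g n) (g' n)
    exact ⟨w, nbd_subset_nbd hy1 (nbd_mono y (fun n => le_max_left _ _) hw),
      hg' (nbd_mono y (fun n => le_max_right _ _) hw)⟩
  have hST : Far {w | tot w ∈ U} {w | tot w ∈ V} := by
    intro x
    by_cases hx : x ∈ closure[boxTop] U
    · have hx2 : x ∉ closure[boxTop] V := Set.disjoint_left.1 hd hx
      rw [mem_closure_iff'] at hx2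
      push Not at hx2
      obtain ⟨g, hg⟩ := hx2
      exact ⟨g, Or.inr fun w hw hw2 =>
        Set.eq_empty_iff_forall_notMem.1 hg (tot w) ⟨hw2, hw⟩⟩
    · rw [mem_closure_iff'] at hx
      push Not at hx
      obtain ⟨g, hg⟩ := hx
      exact ⟨g, Or.inl fun w hw hw2 =>
        Set.eq_empty_iff_forall_notMem.1 hg (tot w) ⟨hw2, hw⟩⟩
  obtain ⟨C, hC1, hC2⟩ := h _ _ hST
  refine ⟨inr C, inr Cᶜ, isOpen_inr C, isOpen_inr Cᶜ, fun z hz => ?_, fun z hz => ?_,
    disjoint_inr C⟩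
  · obtain ⟨g, hg | hg⟩ := hC1 z
    · obtain ⟨w, hw1, hw2⟩ := hcl hU hz g
      exact absurd hw1 (hg w hw2)
    · refine ⟨g, fun w hw => ?_⟩
      by_contra hwC
      exact hg w hwC hw
  · obtain ⟨g, hg | hg⟩ := hC2 z
    · exact ⟨g, fun w hw hwC => hg w hwC hw⟩
    · obtain ⟨w, hw1, hw2⟩ := hcl hV hz g
      exact absurd hw1 (hg w hw2)

theorem main : (@NormalSpace _ boxTop ↔ Mild) ∧ (@NormalSpace _ boxTop ↔ Interp) :=
  ⟨⟨mild_of_normal, normal_of_mild⟩,
    ⟨fun h => interp_of_mild (mild_of_normal h), fun h => normal_of_mild (mild_of_interp h)⟩⟩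

end Pool.Agent.H58.BP
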