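import Mathlib
import Pool.Agent.H58.BP.ALI

/-! # MP_d8fe2e_gt, module PIECE: localisation of the integral of one graph -/

open MeasureTheory Set Filter Topology Metric
open scoped Real ENNReal NNReal

namespace Pool.Agent.H58.BP

open Pool.Agent.H66.BP

/-- threshold of a monotone function, first form -/
theorem thr_lt {a b v : ℝ} {p : ℝ → ℝ} (hab : a < b) (hp : MonotoneOn p (Ioo a b)) :
    ∃ c ∈ Icc a b, (∀ x ∈ Ioo a c, p x < v) ∧ (∀ x ∈ Ioo c b, v ≤ p x) := by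
  set A : Set ℝ := {x | x ∈ Ioo a b ∧ p x < v} ∪ {a} with hA
  have hne : A.Nonempty := ⟨a, Or.inr rfl⟩
  have hbd : ∀ x ∈ A, x ≤ b := by
    rintro x (hx | hx)
    · exact hx.1.2.le
    · rw [hx]
      exact hab.le
  have hBdd : BddAbove A := ⟨b, hbd⟩
  refine ⟨sSup A, ⟨le_csSup hBdd (Or.inr rfl), csSup_le hne hbd⟩, ?_, ?_⟩
  · intro x hx
    obtain ⟨y, hy, hxy⟩ := exists_lt_of_lt_csSup hne hx.2
    rcases hy with hy | hy
    · exact lt_of_le_of_lt (hp ⟨hx.1, hxy.trans hy.1.2⟩ hy.1 hxy.le) hy.2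
    · exact absurd (hx.1.trans hxy) (by rw [hy]; exact lt_irrefl a)
  · intro x hx
    by_contra h
    push Not at h
    have hax : a < x := lt_of_le_of_lt (le_csSup hBdd (Or.inr rfl)) hx.1
    have : x ∈ A := Or.inl ⟨⟨hax, hx.2⟩, h⟩
    exact absurd (le_csSup hBdd this) (not_le.mpr hx.1)

/-- threshold of a monotone function, second form -/
theorem thr_le {a b v : ℝ} {p : ℝ → ℝ} (hab : a < b) (hp : MonotoneOn p (Ioo a b)) :
    ∃ c ∈ Icc a b, (∀ x ∈ Ioo a c, p x ≤ v) ∧ (∀ x ∈ Ioo c b, v < p x) := by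
  set A : Set ℝ := {x | x ∈ Ioo a b ∧ p x ≤ v} ∪ {a} with hA
  have hne : A.Nonempty := ⟨a, Or.inr rfl⟩
  have hbd : ∀ x ∈ A, x ≤ b := by
    rintro x (hx | hx)
    · exact hx.1.2.le
    · rw [hx]
      exact hab.le
  have hBdd : BddAbove A := ⟨b, hbd⟩
  refine ⟨sSup A, ⟨le_csSup hBdd (Or.inr rfl), csSup_le hne hbd⟩, ?_, ?_⟩
  · intro x hx
    obtain ⟨y, hy, hxy⟩ := exists_lt_of_lt_csSup hne hx.2
    rcases hy with hy | hy
    · exact (hp ⟨hx.1, hxy.trans hy.1.2⟩ hy.1 hxy.le).trans hy.2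
    · exact absurd (hx.1.trans hxy) (by rw [hy]; exact lt_irrefl a)
  · intro x hx
    by_contra h
    push Not at h
    have hax : a < x := lt_of_le_of_lt (le_csSup hBdd (Or.inr rfl)) hx.1
    have : x ∈ A := Or.inl ⟨⟨hax, hx.2⟩, h⟩
    exact absurd (le_csSup hBdd this) (not_le.mpr hx.1)

theorem exp_sub_exp {u v : ℂ} (hu : u.re ≤ 0) (hv : v.re ≤ 0) :
    ‖Complex.exp u - Complex.exp v‖ ≤ ‖u - v‖ := by
  have hconv : Convex ℝ {z : ℂ | z.re ≤ 0} := convex_halfSpace_re_le 0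
  have := Convex.norm_image_sub_le_of_norm_deriv_le (𝕜 := ℂ) (f := Complex.exp) (C := 1) (s := {z : ℂ | z.re ≤ 0})
    (x := v) (y := u) (fun x _ => Complex.differentiable_exp x) (fun x hx => ?_) hconv hv hu
  · rwa [one_mul] at this
  · rw [Complex.deriv_exp, Complex.norm_exp]
    exact Real.exp_le_one_iff.mpr hx

theorem sqrt_int {a b : ℝ} {g : ℝ → ℝ} (h : IntervalIntegrable g volume a b) :
    IntervalIntegrable (fun x => Real.sqrt (1 + (g x) ^ 2)) volume a b := by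
  have h1 : IntervalIntegrable (fun x => 1 + |g x|) volume a b :=
    intervalIntegrable_const.add h.abs
  refine h1.mono_fun ?_ ?_
  · have hm := h.def'.aestronglyMeasurable
    have hcont : Continuous fun t : ℝ => Real.sqrt (1 + t ^ 2) :=
      Real.continuous_sqrt.comp (continuous_const.add (continuous_id.pow 2))
    exact hcont.comp_aestronglyMeasurable hm
  · refine Eventually.of_forall fun x => ?_
    have h2 : 0 ≤ Real.sqrt (1 + (g x) ^ 2) := Real.sqrt_nonneg _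
    have h3 : 0 ≤ 1 + |g x| := by positivity
    simp only [Real.norm_eq_abs]
    rw [abs_of_nonneg h2, abs_of_nonneg h3]
    refine Real.sqrt_le_iff.mpr ⟨h3, ?_⟩
    have := abs_nonneg (g x)
    have e : (g x) ^ 2 = |g x| ^ 2 := (sq_abs _).symm
    nlinarith

theorem piece (hFAR : T_FAR) (hALI : T_ALI) : T_PIECE := by
  intro a b δ w w₀ V τ W ψ l hab hδ hδ4 hw hconv hcont hψ hzero hV hvol hl hl0 hτ
  obtain ⟨x0, hx0, hx0z⟩ := hzero
  have hW : 0 ≤ W := by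
    have := (hψ x0 hx0).2
    rw [hx0z] at this
    exact this
  obtain ⟨-, hrint, hFTC⟩ := hALI a b ψ hab (Or.inl hconv) hcont
  have hmono := rd_mono hconv
  obtain ⟨c1, hc1, hc1a, hc1b⟩ := thr_le (v := -δ) hab hmono
  obtain ⟨c2, hc2, hc2a, hc2b⟩ := thr_lt (v := δ) hab hmono
  obtain ⟨d1, hd1, hd1a, hd1b⟩ := thr_le (v := w₀ - w - 1) hab hmono
  obtain ⟨d2, hd2, hd2a, hd2b⟩ := thr_lt (v := w₀ - w + 1) hab hmono
  have hw1 := (abs_le.mp hw).1
  have hw2 := (abs_le.mp hw).2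
  have hc12 : c1 ≤ c2 := by
    by_contra h
    push Not at h
    obtain ⟨x, hx1, hx2⟩ := exists_between h
    have h1 := hc1a x ⟨lt_of_le_of_lt hc2.1 hx1, hx2⟩
    have h2 := hc2b x ⟨hx1, lt_of_lt_of_le hx2 hc1.2⟩
    linarith
  have hd1c1 : d1 ≤ c1 := by
    by_contra h
    push Not at h
    obtain ⟨x, hx1, hx2⟩ := exists_between h
    have h1 := hd1a x ⟨lt_of_le_of_lt hc1.1 hx1, hx2⟩
    have h2 := hc1b x ⟨hx1, lt_of_lt_of_le hx2 hd1.2⟩
    linarith
  have hc2d2 : c2 ≤ d2 := by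
    by_contra h
    push Not at h
    obtain ⟨x, hx1, hx2⟩ := exists_between h
    have h1 := hc2a x ⟨lt_of_le_of_lt hd2.1 hx1, hx2⟩
    have h2 := hd2b x ⟨hx1, lt_of_lt_of_le hx2 hc2.2⟩
    linarith
  -- the set is an interval
  have hset : ({x | x ∈ Ioo a b ∧ |rd ψ x + w - w₀| < 1} : Set ℝ) =ᵐ[volume] Ioc d1 d2 := by
    have hne : ∀ᵐ x : ℝ, x ≠ d1 ∧ x ≠ d2 ∧ x ≠ a ∧ x ≠ b := by
      have h : ∀ c : ℝ, ∀ᵐ x : ℝ, x ≠ c := fun c => by simp [ae_iff, measure_singleton]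
      filter_upwards [h d1, h d2, h a, h b] with x h1 h2 h3 h4
      exact ⟨h1, h2, h3, h4⟩
    refine Filter.eventuallyEq_set.mpr ?_
    filter_upwards [hne] with x hx
    obtain ⟨hx1, hx2, hxa, hxb⟩ := hx
    constructor
    · rintro ⟨hxI, hxp⟩
      obtain ⟨h1, h2⟩ := abs_lt.mp hxp
      constructor
      · by_contra h
        push Not at h
        have := hd1a x ⟨hxI.1, lt_of_le_of_ne h hx1⟩
        linarith
      · by_contra h
        push Not at h
        have := hd2b x ⟨h, hxI.2⟩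
        linarith
    · rintro ⟨h1, h2⟩
      have h2' : x < d2 := lt_of_le_of_ne h2 hx2
      have hxI : x ∈ Ioo a b := ⟨lt_of_le_of_lt hd1.1 h1, lt_of_lt_of_le h2' hd2.2⟩
      refine ⟨hxI, abs_lt.mpr ⟨?_, ?_⟩⟩
      · have := hd1b x ⟨h1, hxI.2⟩
        linarith
      · have := hd2a x ⟨hxI.1, h2'⟩
        linarith
  have hd12 : d1 ≤ d2 := hd1c1.trans (hc12.trans hc2d2)
  have hIint : ∀ f : ℝ → ℂ, ∫ x in {x | x ∈ Ioo a b ∧ |rd ψ x + w - w₀| < 1}, f x = ∫ x in d1..d2, f x := by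
    intro f
    rw [setIntegral_congr_set hset, intervalIntegral.integral_of_le hd12]
  -- integrability of the weight
  have hn : IntervalIntegrable (fun x => (Real.sqrt (1 + (rd ψ x + w) ^ 2) : ℂ)) volume a b := by
    have h1 : IntervalIntegrable (fun x => rd ψ x + w) volume a b := hrint.add intervalIntegrable_const
    exact ⟨(sqrt_int h1).1.ofReal, (sqrt_int h1).2.ofReal⟩
  have hprod : ∀ g : ℝ → ℂ, ContinuousOn g (Icc a b) →
      IntervalIntegrable (fun x => g x * (Real.sqrt (1 + (rd ψ x + w) ^ 2) : ℂ)) volume a b := by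
    intro g hg
    exact hn.continuousOn_mul (by rwa [uIcc_of_le hab.le])
  have hψc : ContinuousOn (fun x => (ψ x : ℂ)) (Icc a b) := Complex.continuous_ofReal.comp_continuousOn hcont
  -- length of the middle interval
  have hlen : c2 - c1 ≤ V := by
    have h1 : Ioo c1 c2 ⊆ {x | x ∈ Ioo a b ∧ |rd ψ x| < δ} := by
      intro x hx
      have hxI : x ∈ Ioo a b := ⟨lt_of_le_of_lt hc1.1 hx.1, lt_of_lt_of_le hx.2 hc2.2⟩
      exact ⟨hxI, abs_lt.mpr ⟨hc1b x ⟨hx.1, hxI.2⟩, hc2a x ⟨hxI.1, hx.2⟩⟩⟩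
    have h2 := (measure_mono h1).trans hvol
    rw [Real.volume_Ioo] at h2
    exact (ENNReal.ofReal_le_ofReal_iff hV).mp h2
  -- position of the zero
  have hmono_set : ∀ {x y : ℝ}, x ∈ Icc a b → y ∈ Icc a b → IntervalIntegrable (rd ψ) volume x y := by
    intro x y hx hy
    refine hrint.mono_set ?_
    rw [uIcc_of_le hab.le]
    exact uIcc_subset_Icc hx hy
  have hx0c1 : c1 ≤ x0 := by
    by_contra h
    push Not at h
    have h1 := (hFTC x0 hx0 c1 hc1 h.le).1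
    have h2 : ∫ u in x0..c1, rd ψ u ≤ ∫ _u in x0..c1, (-δ) := by
      refine intervalIntegral.integral_mono_on_of_le_Ioo h.le (hmono_set hx0 hc1) intervalIntegrable_const ?_
      intro u hu
      exact hc1a u ⟨lt_of_le_of_lt hx0.1 hu.1, hu.2⟩
    rw [intervalIntegral.integral_const, smul_eq_mul] at h2
    have h3 := (hψ c1 hc1).1
    nlinarith
  have hx0c2 : x0 ≤ c2 := by
    by_contra h
    push Not at h
    have h1 := (hFTC c2 hc2 x0 hx0 h.le).1
    have h2 : ∫ _u in c2..x0, δ ≤ ∫ u in c2..x0, rd ψ u := by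
      refine intervalIntegral.integral_mono_on_of_le_Ioo h.le intervalIntegrable_const (hmono_set hc2 hx0) ?_
      intro u hu
      exact hc2b u ⟨hu.1, lt_of_lt_of_le hu.2 hx0.2⟩
    rw [intervalIntegral.integral_const, smul_eq_mul] at h2
    have h3 := (hψ c2 hc2).1
    nlinarith
  have hsmall : ∀ x ∈ Icc c1 c2, ψ x ≤ δ * V := by
    intro x hx
    have hxI : x ∈ Icc a b := ⟨hc1.1.trans hx.1, hx.2.trans hc2.2⟩
    rcases le_total x0 x with h | h
    · have h1 := (hFTC x0 hx0 x hxI h).1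
      have h2 : ∫ u in x0..x, rd ψ u ≤ ∫ _u in x0..x, δ := by
        refine intervalIntegral.integral_mono_on_of_le_Ioo h (hmono_set hx0 hxI) intervalIntegrable_const ?_
        intro u hu
        exact (hc2a u ⟨lt_of_le_of_lt hx0.1 hu.1, lt_of_lt_of_le hu.2 hx.2⟩).le
      rw [intervalIntegral.integral_const, smul_eq_mul] at h2
      have h3 : x - x0 ≤ V := by linarith [hx.2]
      nlinarith
    · have h1 := (hFTC x hxI x0 hx0 h).1
      have h2 : ∫ _u in x..x0, (-δ) ≤ ∫ u in x..x0, rd ψ u := by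
        refine intervalIntegral.integral_mono_on_of_le_Ioo h intervalIntegrable_const (hmono_set hxI hx0) ?_
        intro u hu
        exact (hc1b u ⟨lt_of_le_of_lt hx.1 hu.1, lt_of_lt_of_le hu.2 hx0.2⟩).le
      rw [intervalIntegral.integral_const, smul_eq_mul] at h2
      have h3 : x0 - x ≤ V := by linarith [hx.1]
      nlinarith
  have hnle : ∀ x ∈ Ioo c1 c2, Real.sqrt (1 + (rd ψ x + w) ^ 2) ≤ 3 + |w₀| := by
    intro x hx
    have hp1 := hc1b x ⟨hx.1, lt_of_lt_of_le hx.2 hc2.2⟩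
    have hp2 := hc2a x ⟨lt_of_le_of_lt hc1.1 hx.1, hx.2⟩
    have h0 : 0 ≤ 3 + |w₀| := by positivity
    refine Real.sqrt_le_iff.mpr ⟨h0, ?_⟩
    have h1 : |rd ψ x + w| ≤ 2 + |w₀| := by
      refine abs_le.mpr ⟨?_, ?_⟩
      · linarith [neg_abs_le w₀]
      · linarith [le_abs_self w₀]
    have h2 : (rd ψ x + w) ^ 2 ≤ (2 + |w₀|) ^ 2 := by
      rw [← sq_abs]
      exact pow_le_pow_left₀ (abs_nonneg _) h1 2
    nlinarith [abs_nonneg w₀]
  -- the general estimate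
  have hgen : ∀ (f g : ℝ → ℂ) (X Y : ℝ), IntervalIntegrable f volume a b → IntervalIntegrable g volume a b →
      ‖∫ x in a..c1, f x‖ ≤ X → ‖∫ x in c2..b, f x‖ ≤ X → ‖∫ x in d1..c1, g x‖ ≤ Y → ‖∫ x in c2..d2, g x‖ ≤ Y →
      (∀ x ∈ Ioo c1 c2, ‖f x - g x‖ ≤ ‖l - Complex.I * τ‖ * (δ * V) * (3 + |w₀|)) →
      ‖(∫ x in a..b, f x) - ∫ x in d1..d2, g x‖ ≤ 2 * X + 2 * Y + ‖l - Complex.I * τ‖ * δ * V ^ 2 * (3 + |w₀|) := by
    intro f g X Y hf hg h1 h2 h3 h4 h5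
    have sub : ∀ {h : ℝ → ℂ}, IntervalIntegrable h volume a b → ∀ {x y : ℝ}, x ∈ Icc a b → y ∈ Icc a b →
        IntervalIntegrable h volume x y := by
      intro h hh x y hx hy
      refine hh.mono_set ?_
      rw [uIcc_of_le hab.le]
      exact uIcc_subset_Icc hx hy
    have ha : a ∈ Icc a b := ⟨le_refl _, hab.le⟩
    have hb : b ∈ Icc a b := ⟨hab.le, le_refl _⟩
    have ef : ∫ x in a..b, f x = (∫ x in a..c1, f x) + (∫ x in c1..c2, f x) + ∫ x in c2..b, f x := by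
      rw [intervalIntegral.integral_add_adjacent_intervals (sub hf ha hc1) (sub hf hc1 hc2),
        intervalIntegral.integral_add_adjacent_intervals (sub hf ha hc2) (sub hf hc2 hb)]
    have eg : ∫ x in d1..d2, g x = (∫ x in d1..c1, g x) + (∫ x in c1..c2, g x) + ∫ x in c2..d2, g x := by
      rw [intervalIntegral.integral_add_adjacent_intervals (sub hg hd1 hc1) (sub hg hc1 hc2),
        intervalIntegral.integral_add_adjacent_intervals (sub hg hd1 hc2) (sub hg hc2 hd2)]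
    have em : ‖(∫ x in c1..c2, f x) - ∫ x in c1..c2, g x‖ ≤ ‖l - Complex.I * τ‖ * δ * V ^ 2 * (3 + |w₀|) := by
      rw [← intervalIntegral.integral_sub (sub hf hc1 hc2) (sub hg hc1 hc2)]
      have hb1 : ‖∫ x in c1..c2, (f x - g x)‖ ≤ (‖l - Complex.I * τ‖ * (δ * V) * (3 + |w₀|)) * |c2 - c1| := by
        refine intervalIntegral.norm_integral_le_of_norm_le_const_ae ?_
        have hne : ∀ᵐ x : ℝ, x ≠ c2 := by simp [ae_iff, measure_singleton]
        filter_upwards [hne] with x hx hxm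
        rw [uIoc_of_le hc12] at hxm
        exact h5 x ⟨hxm.1, lt_of_le_of_ne hxm.2 hx⟩
      rw [abs_of_nonneg (show 0 ≤ c2 - c1 by linarith)] at hb1
      have hpos : 0 ≤ ‖l - Complex.I * τ‖ * (δ * V) * (3 + |w₀|) := by positivity
      calc _ ≤ (‖l - Complex.I * τ‖ * (δ * V) * (3 + |w₀|)) * (c2 - c1) := hb1
        _ ≤ (‖l - Complex.I * τ‖ * (δ * V) * (3 + |w₀|)) * V := mul_le_mul_of_nonneg_left hlen hpos
        _ = ‖l - Complex.I * τ‖ * δ * V ^ 2 * (3 + |w₀|) := by ring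
    rw [ef, eg]
    have e : (∫ x in a..c1, f x) + (∫ x in c1..c2, f x) + (∫ x in c2..b, f x) -
        ((∫ x in d1..c1, g x) + (∫ x in c1..c2, g x) + ∫ x in c2..d2, g x) =
        (∫ x in a..c1, f x) + (∫ x in c2..b, f x) + (-(∫ x in d1..c1, g x)) + (-(∫ x in c2..d2, g x)) +
        ((∫ x in c1..c2, f x) - ∫ x in c1..c2, g x) := by ring
    rw [e]
    refine (norm_add_le _ _).trans ?_
    have s1 : ‖(∫ x in a..c1, f x) + (∫ x in c2..b, f x) + (-(∫ x in d1..c1, g x)) + (-(∫ x in c2..d2, g x))‖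
        ≤ X + X + Y + Y := by
      refine (norm_add_le _ _).trans (add_le_add ?_ (by rwa [norm_neg]))
      refine (norm_add_le _ _).trans (add_le_add ?_ (by rwa [norm_neg]))
      exact (norm_add_le _ _).trans (add_le_add h1 h2)
    linarith
  -- far estimates
  have hl' : ‖Complex.I * (τ : ℂ)‖ = |τ| := by
    rw [norm_mul, Complex.norm_I, one_mul, Complex.norm_real, Real.norm_eq_abs]
  have hre : (Complex.I * (τ : ℂ)).re = 0 := by simp
  have hIτ0 : Complex.I * (τ : ℂ) ≠ 0 := by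
    simp [hτ]
  have farA : ∀ (x y : ℝ), x ∈ Icc a b → y ∈ Icc a b → x ≤ y →
      ((∀ u ∈ Ioo x y, δ ≤ rd ψ u) ∨ (∀ u ∈ Ioo x y, rd ψ u ≤ -δ)) → ∀ m : ℂ, 0 ≤ m.re → m ≠ 0 →
      ‖∫ u in x..y, Complex.exp (-(m * (ψ u : ℂ))) * (Real.sqrt (1 + (rd ψ u + w) ^ 2) : ℂ)‖ ≤
        2 / ‖m‖ * ((2 + 3 * |w|) / δ) := by
    intro x y hx hy hxy hsgn m hm hm0
    have hsub : Icc x y ⊆ Icc a b := Icc_subset_Icc hx.1 hy.2
    have hsubo : Ioo x y ⊆ Ioo a b := Ioo_subset_Ioo hx.1 hy.2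
    refine hFAR x y δ w ψ (rd ψ) m hxy hδ (by linarith) (hcont.mono hsub) (fun u hu => (hψ u (hsub hu)).1)
      (fun u hu => rd_convex hconv (hsubo hu)) (Or.inl (hmono.mono hsubo)) hsgn hm hm0
  have farB : ∀ (x y : ℝ), x ∈ Icc a b → y ∈ Icc a b → x ≤ y →
      ((∀ u ∈ Ioo x y, δ ≤ rd ψ u) ∨ (∀ u ∈ Ioo x y, rd ψ u ≤ -δ)) → ∀ m : ℂ, 0 ≤ m.re → m ≠ 0 →
      ‖∫ u in x..y, Complex.exp (-(m * ((W : ℂ) - (ψ u : ℂ)))) * (Real.sqrt (1 + (rd ψ u + w) ^ 2) : ℂ)‖ ≤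
        2 / ‖m‖ * ((2 + 3 * |w|) / δ) := by
    intro x y hx hy hxy hsgn m hm hm0
    have hsub : Icc x y ⊆ Icc a b := Icc_subset_Icc hx.1 hy.2
    have hsubo : Ioo x y ⊆ Ioo a b := Ioo_subset_Ioo hx.1 hy.2
    have h := hFAR x y δ (-w) (fun u => W - ψ u) (fun u => - rd ψ u) m hxy hδ (by linarith)
      (continuousOn_const.sub (hcont.mono hsub)) (fun u hu => by linarith [(hψ u (hsub hu)).2])
      (fun u hu => (rd_convex hconv (hsubo hu)).const_sub W)
      (Or.inr (fun u hu v hv huv => neg_le_neg (hmono (hsubo hu) (hsubo hv) huv)))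
      (hsgn.elim (fun h => Or.inr fun u hu => neg_le_neg (h u hu)) (fun h => Or.inl fun u hu => by
        have := h u hu
        linarith)) hm hm0
    rw [abs_neg] at h
    have e : ∀ u, (-rd ψ u + -w) ^ 2 = (rd ψ u + w) ^ 2 := fun u => by ring
    simp only [e, Complex.ofReal_sub] at h
    exact h
  have S1 : (∀ u ∈ Ioo a c1, δ ≤ rd ψ u) ∨ (∀ u ∈ Ioo a c1, rd ψ u ≤ -δ) := Or.inr hc1a
  have S2 : (∀ u ∈ Ioo c2 b, δ ≤ rd ψ u) ∨ (∀ u ∈ Ioo c2 b, rd ψ u ≤ -δ) := Or.inl hc2b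
  have S3 : (∀ u ∈ Ioo d1 c1, δ ≤ rd ψ u) ∨ (∀ u ∈ Ioo d1 c1, rd ψ u ≤ -δ) :=
    Or.inr fun u hu => hc1a u ⟨lt_of_le_of_lt hd1.1 hu.1, hu.2⟩
  have S4 : (∀ u ∈ Ioo c2 d2, δ ≤ rd ψ u) ∨ (∀ u ∈ Ioo c2 d2, rd ψ u ≤ -δ) :=
    Or.inl fun u hu => hc2b u ⟨hu.1, lt_of_lt_of_le hu.2 hd2.2⟩
  have ha : a ∈ Icc a b := ⟨le_refl _, hab.le⟩
  have hb : b ∈ Icc a b := ⟨hab.le, le_refl _⟩
  constructor
  · rw [hIint]
    have h := hgen (fun x => Complex.exp (-(l * (ψ x : ℂ))) * (Real.sqrt (1 + (rd ψ x + w) ^ 2) : ℂ))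
      (fun x => Complex.exp (-(Complex.I * τ * (ψ x : ℂ))) * (Real.sqrt (1 + (rd ψ x + w) ^ 2) : ℂ))
      (2 / ‖l‖ * ((2 + 3 * |w|) / δ)) (2 / |τ| * ((2 + 3 * |w|) / δ))
      (hprod _ (Complex.continuous_exp.comp_continuousOn (continuousOn_const.mul hψc).neg))
      (hprod _ (Complex.continuous_exp.comp_continuousOn (continuousOn_const.mul hψc).neg))
      (farA a c1 ha hc1 hc1.1 S1 l hl hl0) (farA c2 b hc2 hb hc2.2 S2 l hl hl0) ?_ ?_ ?_
    · refine h.trans (le_of_eq ?_)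
      ring
    · have := farA d1 c1 hd1 hc1 hd1c1 S3 (Complex.I * τ) hre.ge hIτ0
      rwa [hl'] at this
    · have := farA c2 d2 hc2 hd2 hc2d2 S4 (Complex.I * τ) hre.ge hIτ0
      rwa [hl'] at this
    · intro x hx
      have hxI : x ∈ Icc a b := ⟨hc1.1.trans hx.1.le, hx.2.le.trans hc2.2⟩
      have hp0 := (hψ x hxI).1
      rw [← sub_mul, norm_mul, Complex.norm_real, Real.norm_of_nonneg (Real.sqrt_nonneg _)]
      refine mul_le_mul ?_ (hnle x hx) (Real.sqrt_nonneg _) (by positivity)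
      refine (exp_sub_exp ?_ ?_).trans ?_
      · simp only [Complex.neg_re, Complex.mul_re, Complex.ofReal_re, Complex.ofReal_im, mul_zero, sub_zero]
        have := mul_nonneg hl hp0
        linarith
      · simp
      · have e : -(l * (ψ x : ℂ)) - -(Complex.I * τ * (ψ x : ℂ)) = -((l - Complex.I * τ) * (ψ x : ℂ)) := by ring
        rw [e, norm_neg, norm_mul, Complex.norm_real, Real.norm_of_nonneg hp0]
        exact mul_le_mul_of_nonneg_left (hsmall x ⟨hx.1.le, hx.2.le⟩) (norm_nonneg _)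
  · rw [hIint, ← intervalIntegral.integral_const_mul]
    have hexpW : ‖Complex.exp (-(l * (W : ℂ)))‖ ≤ 1 := by
      rw [Complex.norm_exp]
      refine Real.exp_le_one_iff.mpr ?_
      simp only [Complex.neg_re, Complex.mul_re, Complex.ofReal_re, Complex.ofReal_im, mul_zero, sub_zero]
      have := mul_nonneg hl hW
      linarith
    have hm0 : (-(Complex.I * (τ : ℂ))) ≠ 0 := neg_ne_zero.mpr hIτ0
    have hmre : 0 ≤ (-(Complex.I * (τ : ℂ))).re := by
      rw [Complex.neg_re, hre, neg_zero]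
    have hfarg : ∀ x y : ℝ, x ∈ Icc a b → y ∈ Icc a b → x ≤ y →
        ((∀ u ∈ Ioo x y, δ ≤ rd ψ u) ∨ (∀ u ∈ Ioo x y, rd ψ u ≤ -δ)) →
        ‖∫ x in x..y, Complex.exp (-(l * (W : ℂ))) *
          (Complex.exp (Complex.I * τ * (ψ x : ℂ)) * (Real.sqrt (1 + (rd ψ x + w) ^ 2) : ℂ))‖ ≤
          2 / |τ| * ((2 + 3 * |w|) / δ) := by
      intro x y hx hy hxy hsgn
      rw [intervalIntegral.integral_const_mul, norm_mul]
      have h := farA x y hx hy hxy hsgn (-(Complex.I * τ)) hmre hm0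
      rw [norm_neg, hl'] at h
      have e : ∀ u : ℝ, -(-(Complex.I * (τ : ℂ)) * (ψ u : ℂ)) = Complex.I * τ * (ψ u : ℂ) := fun u => by ring
      simp only [e] at h
      calc _ ≤ 1 * (2 / |τ| * ((2 + 3 * |w|) / δ)) :=
            mul_le_mul hexpW h (norm_nonneg _) zero_le_one
        _ = _ := one_mul _
    have h := hgen (fun x => Complex.exp (-(l * ((W : ℂ) - (ψ x : ℂ)))) * (Real.sqrt (1 + (rd ψ x + w) ^ 2) : ℂ))
      (fun x => Complex.exp (-(l * (W : ℂ))) *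
        (Complex.exp (Complex.I * τ * (ψ x : ℂ)) * (Real.sqrt (1 + (rd ψ x + w) ^ 2) : ℂ)))
      (2 / ‖l‖ * ((2 + 3 * |w|) / δ)) (2 / |τ| * ((2 + 3 * |w|) / δ))
      (hprod _ (Complex.continuous_exp.comp_continuousOn (continuousOn_const.mul (continuousOn_const.sub hψc)).neg))
      ((hprod _ (Complex.continuous_exp.comp_continuousOn (continuousOn_const.mul hψc))).const_mul _)
      (farB a c1 ha hc1 hc1.1 S1 l hl hl0) (farB c2 b hc2 hb hc2.2 S2 l hl hl0)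
      (hfarg d1 c1 hd1 hc1 hd1c1 S3) (hfarg c2 d2 hc2 hd2 hc2d2 S4) ?_
    · refine h.trans (le_of_eq ?_)
      ring
    · intro x hx
      have hxI : x ∈ Icc a b := ⟨hc1.1.trans hx.1.le, hx.2.le.trans hc2.2⟩
      have hp0 := (hψ x hxI).1
      have hp1 := (hψ x hxI).2
      rw [← mul_assoc, ← sub_mul, norm_mul, Complex.norm_real, Real.norm_of_nonneg (Real.sqrt_nonneg _),
        ← Complex.exp_add]
      refine mul_le_mul ?_ (hnle x hx) (Real.sqrt_nonneg _) (by positivity)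
      refine (exp_sub_exp ?_ ?_).trans ?_
      · have e : (-(l * ((W : ℂ) - (ψ x : ℂ)))).re = -(l.re * (W - ψ x)) := by
          simp [Complex.mul_re]
        rw [e]
        have := mul_nonneg hl (sub_nonneg.mpr hp1)
        linarith
      · have e : (-(l * (W : ℂ)) + Complex.I * τ * (ψ x : ℂ)).re = -(l.re * W) := by
          simp [Complex.mul_re]
        rw [e]
        have := mul_nonneg hl hW
        linarith
      · have e : -(l * ((W : ℂ) - (ψ x : ℂ))) - (-(l * (W : ℂ)) + Complex.I * τ * (ψ x : ℂ))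
            = (l - Complex.I * τ) * (ψ x : ℂ) := by ring
        rw [e, norm_mul, Complex.norm_real, Real.norm_of_nonneg hp0]
        exact mul_le_mul_of_nonneg_left (hsmall x ⟨hx.1.le, hx.2.le⟩) (norm_nonneg _)

end Pool.Agent.H58.BP
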