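import Pool.Agent.H58.BP.Small

/-!
# The box power of `ω + 1`: separation of small closed sets
-/

set_option autoImplicit false

open Topology Set Cardinal

namespace Pool.Agent.H58.BP

open Pool.Agent.H96.BN

theorem dd_le {F : Set (ℕ → ℕ)} (hF : Dom F) : dd ≤ #F := csInf_le' ⟨F, hF, rfl⟩

/-- few functions do not dominate -/
theorem catch_small {S : Set (ℕ → ℕ∞)} (hS : #S < dd) (z : ℕ → ℕ∞) :
    ∃ h, ∀ y ∈ S, Catch h y z := by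
  classical
  have hnx : ∀ (y : ℕ → ℕ∞) (n : ℕ), ∃ m, {n | y n ≠ ⊤ ∧ z n = ⊤}.Infinite →
      n ≤ m ∧ y m ≠ ⊤ ∧ z m = ⊤ := by
    intro y n
    by_cases hB : {n | y n ≠ ⊤ ∧ z n = ⊤}.Infinite
    · obtain ⟨m, hm, hnm⟩ := hB.exists_gt n
      exact ⟨m, fun _ => ⟨hnm.le, hm⟩⟩
    · exact ⟨0, fun h => absurd h hB⟩
  choose nx hnx using hnx
  set φ : (ℕ → ℕ∞) → ℕ → ℕ := fun y n => (y (nx y n)).toNat with hφ
  have h1 : ¬ Dom (φ '' S) := by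
    intro hD
    exact absurd ((dd_le hD).trans mk_image_le) (not_le.2 hS)
  unfold Dom at h1
  push Not at h1
  obtain ⟨h₀, hh⟩ := h1
  refine ⟨fun n => (Finset.range (n + 1)).sup h₀, fun y hy hB => ?_⟩
  apply Set.infinite_of_forall_exists_gt
  intro k
  obtain ⟨n, hn, hlt⟩ := hh (φ y) (mem_image_of_mem φ hy) (k + 1)
  obtain ⟨e1, e2, e3⟩ := hnx y n hB
  refine ⟨nx y n, ⟨e2, e3, ?_⟩, by omega⟩
  rw [← ENat.natCast_toNat e2]
  have h2 : h₀ n ≤ (Finset.range (nx y n + 1)).sup h₀ := Finset.le_sup (Finset.mem_range.2 (by omega))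
  have h3 : (y (nx y n)).toNat < h₀ n := hlt
  exact_mod_cast h3.le.trans h2

/-- bounded sets together with few points -/
theorem catch_mix {A S : Set (ℕ → ℕ∞)} {g : ℕ → ℕ} (hA : A ⊆ Bd g ∪ S) (hS : #S < dd)
    (z : ℕ → ℕ∞) : ∃ h, ∀ y ∈ A, Catch h y z := by
  obtain ⟨h, hh⟩ := catch_small hS z
  refine ⟨fun n => max (g n) (h n), fun y hy => ?_⟩
  rcases hA hy with h1 | h1
  · exact (catch_bd h1 z).mono fun n => le_max_left _ _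
  · exact (hh y h1).mono fun n => le_max_right _ _

/-- a ranking for bounded sets together with at most `𝔡` points -/
theorem exists_rank {A S : Set (ℕ → ℕ∞)} {g : ℕ → ℕ} (hA : A ⊆ Bd g ∪ S) (hS : #S ≤ dd) :
    ∃ ρ : (ℕ → ℕ∞) → Ordinal.{0}, ∀ z ∈ A, ∃ h, ∀ y ∈ A, ρ y ≤ ρ z → Catch h y z := by
  classical
  obtain ⟨r, wo, hr⟩ := Cardinal.exists_ord_eq S
  refine ⟨fun z => if h : z ∈ S then Ordinal.typein r ⟨z, h⟩ + 1 else 0, fun z hz => ?_⟩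
  by_cases hzS : z ∈ S
  · -- the points of smaller rank
    have h1 : #{y : ℕ → ℕ∞ | ∃ h : y ∈ S, r ⟨y, h⟩ ⟨z, hzS⟩} < dd := by
      refine lt_of_lt_of_le ?_ hS
      have h2 : #{y : ℕ → ℕ∞ | ∃ h : y ∈ S, r ⟨y, h⟩ ⟨z, hzS⟩} = #{y : S // r y ⟨z, hzS⟩} := by
        refine Cardinal.mk_congr ⟨fun y => ⟨⟨y.1, y.2.1⟩, y.2.2⟩, fun y => ⟨y.1.1, y.1.2, y.2⟩,
          fun y => rfl, fun y => rfl⟩
      rw [h2]
      have h3 := Ordinal.typein_lt_type r ⟨z, hzS⟩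
      rw [← hr, Cardinal.lt_ord] at h3
      have h4 : (Ordinal.typein r ⟨z, hzS⟩).card = #{y : S // r y ⟨z, hzS⟩} := by
        rfl
      rw [← h4]
      exact h3
    obtain ⟨h, hh⟩ := catch_mix (A := Bd g ∪ {y : ℕ → ℕ∞ | ∃ h : y ∈ S, r ⟨y, h⟩ ⟨z, hzS⟩})
      Subset.rfl h1 z
    refine ⟨h, fun y hy hyz => ?_⟩
    dsimp only at hyz
    by_cases hyS : y ∈ S
    · rw [dif_pos hyS, dif_pos hzS] at hyz
      have h5 : Ordinal.typein r ⟨y, hyS⟩ ≤ Ordinal.typein r ⟨z, hzS⟩ := by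
        rw [← Order.succ_eq_add_one, ← Order.succ_eq_add_one, Order.succ_le_succ_iff] at hyz
        exact hyz
      rcases h5.lt_or_eq with h6 | h6
      · exact hh y (Or.inr ⟨hyS, (Ordinal.typein_lt_typein r).1 h6⟩)
      · have h7 := Ordinal.typein_injective r h6
        have h8 : y = z := congrArg Subtype.val h7
        rw [h8]
        exact catch_self h z
    · rcases hA hy with h9 | h9
      · exact hh y (Or.inl h9)
      · exact absurd h9 hyS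
  · refine ⟨g, fun y hy hyz => ?_⟩
    dsimp only at hyz
    by_cases hyS : y ∈ S
    · rw [dif_pos hyS, dif_neg hzS] at hyz
      exact absurd hyz (not_le.2 (by positivity))
    · rcases hA hy with h9 | h9
      · exact catch_bd h9 z
      · exact absurd h9 hyS

/-- separation -/
theorem sep_of_rank {A H K : Set (ℕ → ℕ∞)} (hH : IsClosed[boxTop] H) (hK : IsClosed[boxTop] K)
    (hd : Disjoint H K) (hHA : H ⊆ A) (ρ : (ℕ → ℕ∞) → Ordinal.{0})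
    (hA : ∀ z ∈ A, ∃ h, ∀ y ∈ A, ρ y ≤ ρ z → Catch h y z)
    (hKA : ∀ z ∈ K, z ∉ A → ∃ h, ∀ y ∈ A, Catch h y z) :
    @SeparatedNhds _ boxTop H K := by
  classical
  obtain ⟨R, hR1, hR2, hR3, hR4⟩ := refine_cover A ρ hA {Kᶜ, Hᶜ} (by
    rintro V (rfl | hV)
    · exact (@isOpen_compl_iff _ _ boxTop).2 hK
    · rw [mem_singleton_iff] at hV
      rw [hV]
      exact (@isOpen_compl_iff _ _ boxTop).2 hH) (by
    intro z _ y _
    by_cases hy : y ∈ K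
    · exact ⟨Hᶜ, by simp, fun h => Set.disjoint_left.1 hd h hy⟩
    · exact ⟨Kᶜ, by simp, hy⟩)
  have hG : ∀ z, ∃ g, z ∈ K → z ∉ ⋃₀ R → Disjoint (nbd z g) (⋃₀ R) := by
    intro z
    by_cases hz : z ∈ K ∧ z ∉ ⋃₀ R
    · obtain ⟨g, hg⟩ := hR4 z hz.2 (hKA z hz.1 fun h => hz.2 (hR3 h))
      exact ⟨g, fun _ _ => hg⟩
    · exact ⟨0, fun h h' => absurd ⟨h, h'⟩ hz⟩
  choose G hG using hG
  have hcase : ∀ V ∈ R, V ⊆ Kᶜ ∨ V ⊆ Hᶜ := by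
    intro V hV
    obtain ⟨W, hW, hVW⟩ := (hR1 V hV).2
    rcases hW with rfl | hW
    · exact Or.inl hVW
    · rw [mem_singleton_iff] at hW
      rw [hW] at hVW
      exact Or.inr hVW
  refine ⟨⋃₀ {V | V ∈ R ∧ V ⊆ Kᶜ},
    ⋃₀ {V | V ∈ R ∧ ¬ V ⊆ Kᶜ} ∪ {w | ∃ z ∈ K, z ∉ ⋃₀ R ∧ w ∈ nbd z (G z)}, ?_, ?_, ?_, ?_, ?_⟩
  · exact @isOpen_sUnion _ boxTop {V | V ∈ R ∧ V ⊆ Kᶜ} fun V hV => (hR1 V hV.1).1
  · refine @IsOpen.union _ _ _ boxTop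
      (@isOpen_sUnion _ boxTop {V | V ∈ R ∧ ¬ V ⊆ Kᶜ} fun V hV => (hR1 V hV.1).1) ?_
    rw [isOpen_iff]
    rintro w ⟨z, hz, hz2, hw⟩
    exact ⟨G z, fun v hv => ⟨z, hz, hz2, nbd_subset_nbd hw hv⟩⟩
  · intro x hx
    obtain ⟨V, hV, hxV⟩ := hR3 (hHA hx)
    refine ⟨V, ⟨hV, ?_⟩, hxV⟩
    rcases hcase V hV with h | h
    · exact h
    · exact absurd hx (h hxV)
  · intro x hx
    by_cases hxR : x ∈ ⋃₀ R
    · obtain ⟨V, hV, hxV⟩ := hxR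
      exact Or.inl ⟨V, ⟨hV, fun h => h hxV hx⟩, hxV⟩
    · exact Or.inr ⟨x, hx, hxR, mem_nbd _ _⟩
  · rw [Set.disjoint_left]
    rintro w ⟨V, ⟨hV, hVK⟩, hwV⟩ (⟨W, ⟨hW, hWK⟩, hwW⟩ | ⟨z, hz, hz2, hwz⟩)
    · have hne : V ≠ W := fun h => hWK (h ▸ hVK)
      exact Set.disjoint_left.1 (hR2 V hV W hW hne) hwV hwW
    · exact Set.disjoint_left.1 (hG z hz hz2) hwz ⟨V, hV, hwV⟩

end Pool.Agent.H58.BP
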