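import Pool.Agent.H58.BP.Tube

/-!
# The box power of `ω + 1`: small sets of points

Disjoint open refinements for sets of points with a ranking such that all points of smaller or
equal rank are caught.
-/

set_option autoImplicit false

open Topology Set

namespace Pool.Agent.H58.BP

open Pool.Agent.H96.BN

/-- if `y` is finite and `z` is infinite in infinitely many places then `y ≤ h` holds in
infinitely many of these places -/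
def Catch (h : ℕ → ℕ) (y z : ℕ → ℕ∞) : Prop :=
  {n | y n ≠ ⊤ ∧ z n = ⊤}.Infinite → {n | y n ≠ ⊤ ∧ z n = ⊤ ∧ y n ≤ h n}.Infinite

/-- the points which are bounded by `g` up to finitely many places (where they are finite) -/
def Bd (g : ℕ → ℕ) : Set (ℕ → ℕ∞) := {x | ∃ k, ∀ n, k ≤ n → x n ≠ ⊤ → x n ≤ g n}

/-- `F` is a dominating family -/
def Dom (F : Set (ℕ → ℕ)) : Prop := ∀ f : ℕ → ℕ, ∃ g ∈ F, ∃ k, ∀ n, k ≤ n → f n ≤ g n

/-- the dominating number -/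
noncomputable def dd : Cardinal.{0} :=
  sInf {κ | ∃ F : Set (ℕ → ℕ), Dom F ∧ Cardinal.mk F = κ}

theorem Catch.mono {h h' : ℕ → ℕ} {y z : ℕ → ℕ∞} (hc : Catch h y z) (hh : ∀ n, h n ≤ h' n) :
    Catch h' y z := by
  intro hB
  refine (hc hB).mono ?_
  rintro n ⟨h1, h2, h3⟩
  exact ⟨h1, h2, h3.trans (by exact_mod_cast hh n)⟩

theorem catch_self (h : ℕ → ℕ) (z : ℕ → ℕ∞) : Catch h z z := by
  intro hB
  obtain ⟨n, hn⟩ := hB.nonempty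
  exact absurd hn.2 hn.1

theorem catch_bd {g : ℕ → ℕ} {y : ℕ → ℕ∞} (hy : y ∈ Bd g) (z : ℕ → ℕ∞) : Catch g y z := by
  obtain ⟨k, hk⟩ := hy
  intro hB
  have h1 : {n | y n ≠ ⊤ ∧ z n = ⊤} \ {n | n < k} ⊆ {n | y n ≠ ⊤ ∧ z n = ⊤ ∧ y n ≤ g n} := by
    rintro n ⟨⟨h2, h3⟩, h4⟩
    exact ⟨h2, h3, hk n (not_lt.1 h4) h2⟩
  exact (hB.sdiff (finite_lt_nat k)).mono h1

/-- tubes around a caught point -/
theorem disjoint_tbs {h f fy : ℕ → ℕ} {y z : ℕ → ℕ∞} (hc : Catch h y z) (hf : ∀ n, h n ≤ f n)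
    (hz : z ∉ tbs y fy) : Disjoint (tbs y fy) (tbs z f) := by
  rw [Set.disjoint_left]
  rintro w ⟨k1, hk1⟩ ⟨k2, hk2⟩
  have h1 : ¬ {n | y n ≠ ⊤ ∧ z n = ⊤ ∧ y n ≤ h n}.Infinite := by
    rw [Set.not_infinite]
    refine (finite_lt_nat (max k1 k2)).subset ?_
    rintro n ⟨h2, h3, h4⟩
    by_contra hn
    have hn' : max k1 k2 ≤ n := not_lt.1 hn
    have e1 := (hk1 n ((le_max_left _ _).trans hn')).1 h2
    have e2 := (hk2 n ((le_max_right _ _).trans hn')).2 h3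
    rw [e1] at e2
    have e3 : ((h n : ℕ) : ℕ∞) ≤ f n := by exact_mod_cast hf n
    exact absurd (lt_of_lt_of_le e2 (h4.trans e3)) (lt_irrefl _)
  have h2 : ¬ {n | y n ≠ ⊤ ∧ z n = ⊤}.Infinite := fun hB => h1 (hc hB)
  rw [Set.not_infinite] at h2
  obtain ⟨k3, hk3⟩ : ∃ k3, ∀ n ∈ {n | y n ≠ ⊤ ∧ z n = ⊤}, n < k3 := by
    obtain ⟨b, hb⟩ := h2.bddAbove
    exact ⟨b + 1, fun n hn => Nat.lt_succ_of_le (hb hn)⟩
  apply hz
  refine ⟨max (max k1 k2) k3, fun n hn => ?_⟩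
  have hn1 : k1 ≤ n := (le_max_left _ _).trans ((le_max_left _ _).trans hn)
  have hn2 : k2 ≤ n := (le_max_right _ _).trans ((le_max_left _ _).trans hn)
  have hn3 : k3 ≤ n := (le_max_right _ _).trans hn
  constructor
  · intro hy
    have hzn : z n ≠ ⊤ := fun hzt => absurd (hk3 n ⟨hy, hzt⟩) (not_lt.2 hn3)
    rw [← (hk1 n hn1).1 hy]
    exact ((hk2 n hn2).1 hzn).symm
  · intro hy
    by_cases hzt : z n = ⊤
    · rw [hzt]
      exact ENat.natCast_lt_top _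
    · rw [← (hk2 n hn2).1 hzt]
      exact (hk1 n hn1).2 hy

/-- a disjoint refinement in a tube -/
theorem local_ref (U : Set (Set (ℕ → ℕ∞))) (hU : ∀ V ∈ U, IsOpen[boxTop] V) (z : ℕ → ℕ∞)
    (hz : ∀ y, Eqf y z → ∃ V ∈ U, y ∈ V) :
    ∃ (f : ℕ → ℕ) (C : ℕ → Set (ℕ → ℕ∞)), (∀ j, IsOpen[boxTop] (C j)) ∧
      (∀ j, ∃ V ∈ U, C j ⊆ V) ∧ (∀ i j, i ≠ j → Disjoint (C i) (C j)) ∧ tbs z f ⊆ ⋃ j, C j := by
  classical
  obtain ⟨e, he⟩ := (countable_class z).exists_eq_range ⟨z, Eqf.refl z⟩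
  have he1 : ∀ j, Eqf (e j) z := fun j => by
    have : e j ∈ {y | Eqf y z} := by
      rw [he]
      exact mem_range_self j
    exact this
  have h1 : ∀ j, ∃ V ∈ U, ∃ g, nbd (e j) g ⊆ V := by
    intro j
    obtain ⟨V, hV, hj⟩ := hz (e j) (he1 j)
    obtain ⟨g, hg⟩ := exists_nbd_of_open (hU V hV) (e j) hj
    exact ⟨V, hV, g, hg⟩
  choose V hV g hg using h1
  have hO : IsOpen[boxTop] (⋃ j, nbd (e j) (g j)) := by
    rw [isOpen_iff]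
    intro w hw
    obtain ⟨j, hj⟩ := mem_iUnion.1 hw
    exact ⟨g j, (nbd_subset_nbd hj).trans (subset_iUnion (fun j => nbd (e j) (g j)) j)⟩
  obtain ⟨f, hf⟩ := tubes hO z (by
    intro y hy
    have hy' : y ∈ range e := by
      rw [← he]
      exact hy
    obtain ⟨j, rfl⟩ := hy'
    exact mem_iUnion.2 ⟨j, mem_nbd _ _⟩)
  refine ⟨f, fun j => {w | w ∈ nbd (e j) (g j) ∧ ∀ i < j, w ∉ nbd (e i) (g i)}, fun j => ?_,
    fun j => ⟨V j, hV j, fun w hw => hg j hw.1⟩, fun i j hij => ?_, fun w hw => ?_⟩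
  · rw [isOpen_iff]
    rintro w ⟨hw1, hw2⟩
    refine ⟨fun n => max (g j n) ((Finset.range j).sup fun i => (e i n).toNat), fun v hv => ?_⟩
    refine ⟨nbd_subset_nbd hw1 (nbd_mono w (fun n => le_max_left _ _) hv), fun i hi hvi => ?_⟩
    refine Set.disjoint_left.1 (disjoint_nbd_of_notMem (hw2 i hi)) ?_ hvi
    refine nbd_mono w (fun n => ?_) hv
    exact (Finset.le_sup (f := fun i => (e i n).toNat) (Finset.mem_range.2 hi)).trans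
      (le_max_right _ _)
  · rw [Set.disjoint_left]
    rintro w ⟨hw1, hw2⟩ ⟨hw3, hw4⟩
    rcases lt_or_gt_of_ne hij with h | h
    · exact hw4 i h hw1
    · exact hw2 j h hw3
  · have h2 : ∃ j, w ∈ nbd (e j) (g j) := mem_iUnion.1 (hf hw)
    exact mem_iUnion.2 ⟨Nat.find h2, Nat.find_spec h2, fun i hi => Nat.find_min h2 hi⟩

/-- the well-ordering of the points by rank -/
def ltR (ρ : (ℕ → ℕ∞) → Ordinal.{0}) (y z : ℕ → ℕ∞) : Prop :=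
  Prod.Lex (· < ·) WellOrderingRel (ρ y, y) (ρ z, z)

theorem ltR_wf (ρ : (ℕ → ℕ∞) → Ordinal.{0}) : WellFounded (ltR ρ) :=
  InvImage.wf (fun z => (ρ z, z))
    (WellFounded.prod_lex Ordinal.lt_wf (IsWellFounded.wf (r := WellOrderingRel)))

theorem ltR_le {ρ : (ℕ → ℕ∞) → Ordinal.{0}} {y z : ℕ → ℕ∞} (h : ltR ρ y z) : ρ y ≤ ρ z := by
  unfold ltR at h
  rw [Prod.lex_def] at h
  rcases h with h | h
  · exact h.le
  · exact h.1.le

theorem ltR_tri (ρ : (ℕ → ℕ∞) → Ordinal.{0}) {y z : ℕ → ℕ∞} (h : y ≠ z) :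
    ltR ρ y z ∨ ltR ρ z y := by
  unfold ltR
  rw [Prod.lex_def, Prod.lex_def]
  rcases lt_trichotomy (ρ y) (ρ z) with h1 | h1 | h1
  · exact Or.inl (Or.inl h1)
  · rcases trichotomous_of WellOrderingRel y z with h2 | h2 | h2
    · exact Or.inl (Or.inr ⟨h1, h2⟩)
    · exact absurd h2 h
    · exact Or.inr (Or.inr ⟨h1.symm, h2⟩)
  · exact Or.inr (Or.inl h1)

/-- the leaders -/
noncomputable def lead (A : Set (ℕ → ℕ∞)) (ρ : (ℕ → ℕ∞) → Ordinal.{0}) (f : (ℕ → ℕ∞) → ℕ → ℕ) :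
    (ℕ → ℕ∞) → Prop :=
  (ltR_wf ρ).fix fun z ih => z ∈ A ∧ ∀ y (h : ltR ρ y z), ih y h → z ∉ tbs y (f y)

theorem lead_iff (A : Set (ℕ → ℕ∞)) (ρ : (ℕ → ℕ∞) → Ordinal.{0}) (f : (ℕ → ℕ∞) → ℕ → ℕ)
    (z : ℕ → ℕ∞) :
    lead A ρ f z ↔ z ∈ A ∧ ∀ y, ltR ρ y z → lead A ρ f y → z ∉ tbs y (f y) := by
  unfold lead
  rw [WellFounded.fix_eq]

/-- disjoint refinements -/
theorem refine_cover (A : Set (ℕ → ℕ∞)) (ρ : (ℕ → ℕ∞) → Ordinal.{0})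
    (hA : ∀ z ∈ A, ∃ h, ∀ y ∈ A, ρ y ≤ ρ z → Catch h y z)
    (U : Set (Set (ℕ → ℕ∞))) (hU : ∀ V ∈ U, IsOpen[boxTop] V)
    (hcov : ∀ z ∈ A, ∀ y, Eqf y z → ∃ V ∈ U, y ∈ V) :
    ∃ R : Set (Set (ℕ → ℕ∞)), (∀ V ∈ R, IsOpen[boxTop] V ∧ ∃ W ∈ U, V ⊆ W) ∧
      (∀ V ∈ R, ∀ W ∈ R, V ≠ W → Disjoint V W) ∧ A ⊆ ⋃₀ R ∧
      ∀ z, z ∉ ⋃₀ R → (∃ h, ∀ y ∈ A, Catch h y z) → ∃ g, Disjoint (nbd z g) (⋃₀ R) := by
  classical
  have h1 : ∀ z, ∃ (f : ℕ → ℕ) (C : ℕ → Set (ℕ → ℕ∞)), z ∈ A →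
      ((∀ j, IsOpen[boxTop] (C j)) ∧ (∀ j, ∃ V ∈ U, C j ⊆ V) ∧
        (∀ i j, i ≠ j → Disjoint (C i) (C j)) ∧ tbs z f ⊆ ⋃ j, C j) := by
    intro z
    by_cases hz : z ∈ A
    · obtain ⟨f, C, h⟩ := local_ref U hU z (hcov z hz)
      exact ⟨f, C, fun _ => h⟩
    · exact ⟨0, fun _ => ∅, fun h => absurd h hz⟩
  choose f0 C hC using h1
  have h2 : ∀ z, ∃ h, z ∈ A → ∀ y ∈ A, ρ y ≤ ρ z → Catch h y z := by
    intro z
    by_cases hz : z ∈ A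
    · obtain ⟨h, hh⟩ := hA z hz
      exact ⟨h, fun _ => hh⟩
    · exact ⟨0, fun h => absurd h hz⟩
  choose h0 hh0 using h2
  set f : (ℕ → ℕ∞) → ℕ → ℕ := fun z n => max (f0 z n) (h0 z n) with hfdef
  have hfC : ∀ z ∈ A, tbs z (f z) ⊆ ⋃ j, C z j := by
    intro z hz
    refine Subset.trans ?_ (hC z hz).2.2.2
    rintro w ⟨k, hk⟩
    exact ⟨k, tb_mono z (fun n _ => le_max_left _ _) hk⟩
  have hL : ∀ z, lead A ρ f z → z ∈ A := fun z hz => ((lead_iff A ρ f z).1 hz).1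
  have hd1 : ∀ y z, lead A ρ f y → lead A ρ f z → ltR ρ y z →
      Disjoint (tbs y (f y)) (tbs z (f z)) := by
    intro y z hy hz hyz
    exact disjoint_tbs (hh0 z (hL z hz) y (hL y hy) (ltR_le hyz)) (fun n => le_max_right _ _)
      (((lead_iff A ρ f z).1 hz).2 y hyz hy)
  have hd : ∀ y z, lead A ρ f y → lead A ρ f z → y ≠ z →
      Disjoint (tbs y (f y)) (tbs z (f z)) := by
    intro y z hy hz hyz
    rcases ltR_tri ρ hyz with h | h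
    · exact hd1 y z hy hz h
    · exact (hd1 z y hz hy h).symm
  have hmem : ∀ w, w ∈ ⋃₀ {V | ∃ y, lead A ρ f y ∧ ∃ j, V = tbs y (f y) ∩ C y j} ↔
      ∃ y, lead A ρ f y ∧ w ∈ tbs y (f y) := by
    intro w
    constructor
    · rintro ⟨_, ⟨y, hy, j, rfl⟩, hw⟩
      exact ⟨y, hy, hw.1⟩
    · rintro ⟨y, hy, hw⟩
      obtain ⟨j, hj⟩ := mem_iUnion.1 (hfC y (hL y hy) hw)
      exact ⟨_, ⟨y, hy, j, rfl⟩, hw, hj⟩
  refine ⟨{V | ∃ y, lead A ρ f y ∧ ∃ j, V = tbs y (f y) ∩ C y j}, ?_, ?_, ?_, ?_⟩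
  · rintro _ ⟨y, hy, j, rfl⟩
    obtain ⟨W, hW, hCW⟩ := (hC y (hL y hy)).2.1 j
    exact ⟨@IsOpen.inter _ boxTop _ _ (isOpen_tbs y (f y)) ((hC y (hL y hy)).1 j), W, hW,
      inter_subset_right.trans hCW⟩
  · rintro _ ⟨y, hy, j, rfl⟩ _ ⟨z, hz, i, rfl⟩ hne
    by_cases hyz : y = z
    · subst hyz
      have hij : j ≠ i := fun h => hne (by rw [h])
      exact ((hC y (hL y hy)).2.2.1 j i hij).mono inter_subset_right inter_subset_right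
    · exact (hd y z hy hz hyz).mono inter_subset_left inter_subset_left
  · intro z hz
    rw [hmem]
    by_cases h : lead A ρ f z
    · exact ⟨z, h, mem_tbs z (f z)⟩
    · rw [lead_iff] at h
      push Not at h
      obtain ⟨y, _, hy2, hy3⟩ := h hz
      exact ⟨y, hy2, hy3⟩
  · rintro z hz ⟨h, hh⟩
    refine ⟨h, ?_⟩
    rw [Set.disjoint_left]
    intro w hw hw2
    obtain ⟨y, hy, hwy⟩ := (hmem w).1 hw2
    have hzy : z ∉ tbs y (f y) := fun h' => hz ((hmem z).2 ⟨y, hy, h'⟩)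
    exact Set.disjoint_left.1 (disjoint_tbs (hh y (hL y hy)) (fun n => le_rfl) hzy) hwy
      (nbd_subset_tbs z h hw)

end Pool.Agent.H58.BP
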