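import Pool.Agent.H58.BP.Basic

/-!
# The box power of `ω + 1`: tubes, finite modifications and saturated sets
-/

set_option autoImplicit false

open Topology Set

namespace Pool.Agent.H58.BP

open Pool.Agent.H96.BN

/-- `y` and `z` differ in finitely many places -/
def Eqf (y z : ℕ → ℕ∞) : Prop := ∃ k, ∀ n, k ≤ n → y n = z n

theorem Eqf.refl (z : ℕ → ℕ∞) : Eqf z z := ⟨0, fun _ _ => rfl⟩

theorem Eqf.symm {y z : ℕ → ℕ∞} (h : Eqf y z) : Eqf z y := by
  obtain ⟨k, hk⟩ := h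
  exact ⟨k, fun n hn => (hk n hn).symm⟩

theorem Eqf.trans {x y z : ℕ → ℕ∞} (h : Eqf x y) (h' : Eqf y z) : Eqf x z := by
  obtain ⟨k, hk⟩ := h
  obtain ⟨k', hk'⟩ := h'
  exact ⟨max k k', fun n hn =>
    (hk n ((le_max_left _ _).trans hn)).trans (hk' n ((le_max_right _ _).trans hn))⟩

theorem countable_class (z : ℕ → ℕ∞) : {y | Eqf y z}.Countable := by
  classical
  have h : {y | Eqf y z} ⊆ ⋃ k : ℕ, range (fun a : Fin k → ℕ∞ => fun n =>
      if h : n < k then a ⟨n, h⟩ else z n) := by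
    rintro y ⟨k, hk⟩
    rw [mem_iUnion]
    refine ⟨k, fun i => y i, ?_⟩
    funext n
    dsimp only
    split_ifs with h
    · rfl
    · exact (hk n (not_lt.1 h)).symm
  exact (countable_iUnion fun k => countable_range _).mono h

/-- the tube around `z` from `k` on -/
def tb (z : ℕ → ℕ∞) (f : ℕ → ℕ) (k : ℕ) : Set (ℕ → ℕ∞) :=
  {w | ∀ n, k ≤ n → (z n ≠ ⊤ → w n = z n) ∧ (z n = ⊤ → (f n : ℕ∞) < w n)}

/-- all tubes around `z` -/
def tbs (z : ℕ → ℕ∞) (f : ℕ → ℕ) : Set (ℕ → ℕ∞) := {w | ∃ k, w ∈ tb z f k}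

theorem tb_mono (z : ℕ → ℕ∞) {f g : ℕ → ℕ} {k : ℕ} (h : ∀ n, k ≤ n → f n ≤ g n) :
    tb z g k ⊆ tb z f k :=
  fun _ hw n hn => ⟨(hw n hn).1, fun h1 => lt_of_le_of_lt (by exact_mod_cast h n hn) ((hw n hn).2 h1)⟩

theorem nbd_subset_tbs (z : ℕ → ℕ∞) (f : ℕ → ℕ) : nbd z f ⊆ tbs z f :=
  fun _ hw => ⟨0, fun n _ => hw n⟩

theorem mem_tbs (z : ℕ → ℕ∞) (f : ℕ → ℕ) : z ∈ tbs z f := nbd_subset_tbs z f (mem_nbd z f)

theorem mem_tbs_of_eqf {y z : ℕ → ℕ∞} (f : ℕ → ℕ) (h : Eqf y z) : y ∈ tbs z f := by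
  obtain ⟨k, hk⟩ := h
  refine ⟨k, fun n hn => ⟨fun _ => hk n hn, fun h => ?_⟩⟩
  rw [hk n hn, h]
  exact ENat.natCast_lt_top _

theorem tbs_sat {x y z : ℕ → ℕ∞} {f : ℕ → ℕ} (hx : x ∈ tbs z f) (h : Eqf y x) : y ∈ tbs z f := by
  obtain ⟨k, hk⟩ := hx
  obtain ⟨k', hk'⟩ := h
  refine ⟨max k k', fun n hn => ?_⟩
  rw [hk' n ((le_max_right _ _).trans hn)]
  exact hk n ((le_max_left _ _).trans hn)

theorem isOpen_tbs (z : ℕ → ℕ∞) (f : ℕ → ℕ) : IsOpen[boxTop] (tbs z f) := by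
  rw [isOpen_iff]
  rintro w ⟨k, hk⟩
  refine ⟨f, fun v hv => ⟨k, fun n hn => ⟨fun h => ?_, fun h => ?_⟩⟩⟩
  · have h1 := (hk n hn).1 h
    rw [← h1] at h ⊢
    exact (hv n).1 h
  · have h1 := (hk n hn).2 h
    by_cases h2 : w n = ⊤
    · exact (hv n).2 h2
    · rw [(hv n).1 h2]
      exact h1

theorem disjoint_nbd_of_notMem {x z : ℕ → ℕ∞} {g : ℕ → ℕ} (h : x ∉ nbd z g) :
    Disjoint (nbd x fun n => (z n).toNat) (nbd z g) := by
  rw [Set.disjoint_left]
  intro v hv hv2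
  apply h
  intro n
  constructor
  · intro hz
    by_cases hx : x n = ⊤
    · exfalso
      have h1 := (hv n).2 hx
      rw [(hv2 n).1 hz, ENat.natCast_toNat hz] at h1
      exact lt_irrefl _ h1
    · rw [← (hv n).1 hx]
      exact (hv2 n).1 hz
  · intro hz
    by_cases hx : x n = ⊤
    · rw [hx]
      exact ENat.natCast_lt_top _
    · rw [← (hv n).1 hx]
      exact (hv2 n).2 hz

theorem isClosed_nbd (z : ℕ → ℕ∞) (g : ℕ → ℕ) : IsClosed[boxTop] (nbd z g) := by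
  rw [isClosed_iff]
  intro x hx
  exact ⟨_, disjoint_nbd_of_notMem hx⟩

/-- the tube lemma -/
theorem tube {O : Set (ℕ → ℕ∞)} (hO : IsOpen[boxTop] O) : ∀ (k : ℕ) (z : ℕ → ℕ∞),
    (∀ y, (∀ n, k ≤ n → y n = z n) → y ∈ O) → ∃ g, tb z g k ⊆ O := by
  classical
  intro k
  induction k with
  | zero =>
    intro z hz
    obtain ⟨g, hg⟩ := exists_nbd_of_open hO z (hz z fun _ _ => rfl)
    exact ⟨g, fun w hw => hg fun n => hw n (Nat.zero_le n)⟩
  | succ k ih =>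
    intro z hz
    have h1 : ∀ a : ℕ∞, ∃ g, tb (Function.update z k a) g k ⊆ O := by
      intro a
      apply ih
      intro y hy
      apply hz
      intro n hn
      rw [hy n (by omega), Function.update_of_ne (by omega)]
    choose G hG using h1
    refine ⟨fun n => max (G ⊤ n) ((Finset.range (G ⊤ k + 1)).sup fun a => G (a : ℕ∞) n), ?_⟩
    intro w hw
    by_cases hk : (G ⊤ k : ℕ∞) < w k
    · apply hG ⊤
      intro n hn
      rcases Nat.eq_or_lt_of_le hn with rfl | hn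
      · rw [Function.update_self]
        exact ⟨fun h => absurd rfl h, fun _ => hk⟩
      · rw [Function.update_of_ne (by omega)]
        refine ⟨(hw n hn).1, fun h => lt_of_le_of_lt ?_ ((hw n hn).2 h)⟩
        exact_mod_cast le_max_left _ _
    · rw [not_lt] at hk
      have hk2 : w k ≠ ⊤ := ne_top_of_le_ne_top (ENat.natCast_ne_top _) hk
      obtain ⟨a, ha⟩ := ENat.ne_top_iff_exists.1 hk2
      have ha2 : a ≤ G ⊤ k := by
        rw [← ha] at hk
        exact_mod_cast hk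
      apply hG (a : ℕ∞)
      intro n hn
      rcases Nat.eq_or_lt_of_le hn with rfl | hn
      · rw [Function.update_self]
        exact ⟨fun _ => ha.symm, fun h => absurd h (ENat.natCast_ne_top _)⟩
      · rw [Function.update_of_ne (by omega)]
        refine ⟨(hw n hn).1, fun h => lt_of_le_of_lt ?_ ((hw n hn).2 h)⟩
        have h2 : G (a : ℕ∞) n ≤ (Finset.range (G ⊤ k + 1)).sup fun a => G (a : ℕ∞) n :=
          Finset.le_sup (f := fun a : ℕ => G (a : ℕ∞) n) (Finset.mem_range.2 (by omega))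
        exact_mod_cast h2.trans (le_max_right _ _)

theorem tubes {O : Set (ℕ → ℕ∞)} (hO : IsOpen[boxTop] O) (z : ℕ → ℕ∞)
    (h : ∀ y, Eqf y z → y ∈ O) : ∃ f, tbs z f ⊆ O := by
  have h1 : ∀ k, ∃ g, tb z g k ⊆ O := fun k => tube hO k z fun y hy => h y ⟨k, hy⟩
  choose G hG using h1
  refine ⟨fun n => (Finset.range (n + 1)).sup fun k => G k n, ?_⟩
  rintro w ⟨k, hk⟩
  apply hG k
  exact tb_mono z (fun n hn => Finset.le_sup (f := fun k => G k n)
    (Finset.mem_range.2 (by omega))) hk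

/-- the set of all finite modifications of elements of `C` -/
def sat (C : Set (ℕ → ℕ∞)) : Set (ℕ → ℕ∞) := {x | ∃ y ∈ C, Eqf x y}

/-- the set is closed under finite modifications -/
def Sat (C : Set (ℕ → ℕ∞)) : Prop := ∀ x ∈ C, ∀ y, Eqf y x → y ∈ C

theorem Sat_sat (C : Set (ℕ → ℕ∞)) : Sat (sat C) := by
  rintro x ⟨y, hy, h⟩ z hz
  exact ⟨y, hy, hz.trans h⟩

theorem subset_sat (C : Set (ℕ → ℕ∞)) : C ⊆ sat C := fun x hx => ⟨x, hx, Eqf.refl x⟩

theorem isClosed_sat {C : Set (ℕ → ℕ∞)} (hC : IsClosed[boxTop] C) : IsClosed[boxTop] (sat C) := by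
  rw [isClosed_iff]
  intro x hx
  have hO : IsOpen[boxTop] Cᶜ := (@isOpen_compl_iff _ _ boxTop).2 hC
  obtain ⟨f, hf⟩ := tubes hO x fun y hy hyC => hx ⟨y, hyC, hy.symm⟩
  refine ⟨f, ?_⟩
  rw [Set.disjoint_left]
  rintro w hw ⟨y, hy, h⟩
  exact hf (tbs_sat (nbd_subset_tbs x f hw) h.symm) hy

/-- a saturated open set contains tubes around its points -/
theorem tbs_subset {O : Set (ℕ → ℕ∞)} (hO : IsOpen[boxTop] O) (hS : Sat O) {z : ℕ → ℕ∞}
    (hz : z ∈ O) : ∃ f, tbs z f ⊆ O :=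
  tubes hO z fun y hy => hS z hz y hy

/-- countable intersections of saturated open sets are open -/
theorem isOpen_iInter_sat {O : ℕ → Set (ℕ → ℕ∞)} (hO : ∀ n, IsOpen[boxTop] (O n))
    (hS : ∀ n, Sat (O n)) : IsOpen[boxTop] (⋂ n, O n) := by
  rw [isOpen_iff]
  intro x hx
  rw [mem_iInter] at hx
  choose G hG using fun n => tbs_subset (hO n) (hS n) (hx n)
  refine ⟨fun m => (Finset.range (m + 1)).sup fun n => G n m, ?_⟩
  intro w hw
  rw [mem_iInter]
  intro n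
  apply hG n
  refine ⟨n, tb_mono x (fun m hm => ?_) fun m _ => hw m⟩
  exact Finset.le_sup (f := fun n => G n m) (Finset.mem_range.2 (by omega))

end Pool.Agent.H58.BP
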